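import Pool.Agent.KL.Level

/-!
Interface for the lower bound `n * exp (c (log n)^(2/3))` for the complexity of a single
level in an arrangement of `n` lines.
-/

namespace Pool.Agent.KL

open Finset

/-- `Pre n m K`: there is a (multi)family of `n` lines `y = s i * x + c i` and `m` distinct
points, such that through each point pass exactly two of the lines (indices `lo e`, `up e`,
with slopes `s (lo e) < s (up e)`) and exactly `K` of the lines are strictly below it. -/
def Pre (n m K : ℕ) : Prop :=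
  ∃ (ι κ : Type) (_ : Fintype ι) (_ : Fintype κ) (s c : ι → ℝ) (lo up : κ → ι) (X Y : κ → ℝ),
    Fintype.card ι = n ∧ Fintype.card κ = m ∧
    (∀ e, s (lo e) < s (up e)) ∧
    (∀ e, s (lo e) * X e + c (lo e) = Y e) ∧
    (∀ e, s (up e) * X e + c (up e) = Y e) ∧
    (∀ e i, i ≠ lo e → i ≠ up e → s i * X e + c i ≠ Y e) ∧
    (∀ e, (univ.filter fun i => s i * X e + c i < Y e).card = K) ∧
    Function.Injective (fun e => (X e, Y e))

/-- Configurations produced by the Nivasch recursion. Slopes are natural numbers `τ i`.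
All vertices `e` have `τ (up e) = τ (lo e) + Δ`. `robust`: for `e ≠ e'` the vertex `e'` is
strictly on the same side of all lines through `e` with slopes in
`[τ (lo e) + 1/4, τ (up e) - 1/4]`. `bal`: exactly `Q` of the pivot lines (line through `e'`
of slope `τ (lo e') + Δ/2`, `e' ≠ e`) are strictly below `e`. The vertices in `good` have
their abscissas in an arithmetic progression along their lower line, lower lines of good
vertices are active, upper lines of good vertices are inactive. -/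
structure NCfg (Δ : ℕ) (V H : ℕ) where
  ι : Type
  κ : Type
  [fι : Fintype ι]
  [fκ : Fintype κ]
  τ : ι → ℕ
  c : ι → ℝ
  lo : κ → ι
  up : κ → ι
  X : κ → ℝ
  Y : κ → ℝ
  K : ℕ
  Q : ℕ
  hτ : ∀ i, τ i ≤ H
  hΔ : ∀ e, τ (up e) = τ (lo e) + Δ
  hlo : ∀ e, (τ (lo e) : ℝ) * X e + c (lo e) = Y e
  hup : ∀ e, (τ (up e) : ℝ) * X e + c (up e) = Y e
  hne : ∀ e i, i ≠ lo e → i ≠ up e → (τ i : ℝ) * X e + c i ≠ Y e
  hK : ∀ e, (univ.filter fun i => (τ i : ℝ) * X e + c i < Y e).card = K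
  inj : Function.Injective (fun e => (X e, Y e))
  robust : ∀ e e', e ≠ e' →
    ((∀ s : ℝ, (τ (lo e) : ℝ) + 1/4 ≤ s → s ≤ τ (up e) - 1/4 → Y e + s * (X e' - X e) < Y e') ∨
     (∀ s : ℝ, (τ (lo e) : ℝ) + 1/4 ≤ s → s ≤ τ (up e) - 1/4 → Y e' < Y e + s * (X e' - X e)))
  bal : ∀ e, (univ.filter fun e' =>
    Y e' + ((τ (lo e') : ℝ) + Δ / 2) * (X e - X e') < Y e).card = Q
  good : κ → Prop
  act : ι → Prop
  x0 : ι → ℝ
  h : ℝ
  h_pos : 0 < h
  pos : κ → ℕ
  pos_lt : ∀ e, good e → pos e < V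
  act_lo : ∀ e, good e → act (lo e)
  act_up : ∀ e, good e → ¬ act (up e)
  hX : ∀ e, good e → X e = x0 (lo e) + h * pos e

attribute [instance] NCfg.fι NCfg.fκ

/-- Inner configurations `T` : natural slopes `≤ H`, exactly two lines through each vertex,
`K` lines strictly below, `τ (up e) = τ (lo e) + 1`, lower lines active and upper lines
inactive, abscissas of the vertices on an active line in an arithmetic progression of length
`V` and common difference `h` (the same for all active lines). -/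
structure TCfg (V H : ℕ) where
  ι : Type
  κ : Type
  [fι : Fintype ι]
  [fκ : Fintype κ]
  τ : ι → ℕ
  c : ι → ℝ
  lo : κ → ι
  up : κ → ι
  X : κ → ℝ
  Y : κ → ℝ
  K : ℕ
  hτ : ∀ i, τ i ≤ H
  hΔ : ∀ e, τ (up e) = τ (lo e) + 1
  hlo : ∀ e, (τ (lo e) : ℝ) * X e + c (lo e) = Y e
  hup : ∀ e, (τ (up e) : ℝ) * X e + c (up e) = Y e
  hne : ∀ e i, i ≠ lo e → i ≠ up e → (τ i : ℝ) * X e + c i ≠ Y e
  hK : ∀ e, (univ.filter fun i => (τ i : ℝ) * X e + c i < Y e).card = K
  inj : Function.Injective (fun e => (X e, Y e))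
  act : ι → Prop
  x0 : ι → ℝ
  h : ℝ
  h_pos : 0 < h
  pos : κ → ℕ
  pos_lt : ∀ e, pos e < V
  act_lo : ∀ e, act (lo e)
  act_up : ∀ e, ¬ act (up e)
  hX : ∀ e, X e = x0 (lo e) + h * pos e

attribute [instance] TCfg.fι TCfg.fκ

/-- Outer configurations: real slopes, positions of the vertices along their active lower
lines in a finite set `Θ` (after an affine map depending on the line). -/
structure Cfg (Θ : Finset ℝ) where
  ι : Type
  κ : Type
  [fι : Fintype ι]
  [fκ : Fintype κ]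
  s : ι → ℝ
  c : ι → ℝ
  lo : κ → ι
  up : κ → ι
  X : κ → ℝ
  Y : κ → ℝ
  K : ℕ
  hlo : ∀ e, s (lo e) * X e + c (lo e) = Y e
  hup : ∀ e, s (up e) * X e + c (up e) = Y e
  hne : ∀ e i, i ≠ lo e → i ≠ up e → s i * X e + c i ≠ Y e
  hK : ∀ e, (univ.filter fun i => s i * X e + c i < Y e).card = K
  inj : Function.Injective (fun e => (X e, Y e))
  act : ι → Prop
  D : ι → ℝ
  x0 : ι → ℝ
  h : ι → ℝ
  D_pos : ∀ i, 0 < D i
  h_pos : ∀ i, 0 < h i
  θ : κ → ℝ
  θ_mem : ∀ e, θ e ∈ Θ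
  act_lo : ∀ e, act (lo e)
  act_up : ∀ e, ¬ act (up e)
  hD : ∀ e, s (up e) = s (lo e) + D (lo e)
  hX : ∀ e, X e = x0 (lo e) + h (lo e) * θ e

attribute [instance] Cfg.fι Cfg.fκ

/-- digit boxes: `A ⊆ B` finite sets of reals such that `B` is closed under the shifts
`α - τ θ` and the rank function of `B` is affine for these shifts -/
structure Scale (H : ℕ) (Θ A B : Finset ℝ) : Prop where
  AB : A ⊆ B
  sub : ∀ α ∈ A, ∀ θ ∈ Θ, ∀ τ : ℕ, τ ≤ H → α - τ * θ ∈ B
  add : ∀ α ∈ A, ∀ θ ∈ Θ, ∀ τ : ℕ, τ ≤ H → α + τ * θ ∈ B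
  rank : ∀ α ∈ A, ∀ θ ∈ Θ, ∀ τ : ℕ, τ ≤ H →
    (B.filter fun b => b < α - τ * θ).card + (B.filter fun b => b < α + τ * θ).card
      = 2 * (B.filter fun b => b < α).card
  gap : ∃ g > 0, ∀ b ∈ B, ∀ b' ∈ B, b < b' → b + g ≤ b'

end Pool.Agent.KL
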