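import Mathlib

/-!
Levels in arrangements of non-vertical lines `y = s x + c`, a line being the pair `(s, c)`.
-/

namespace Pool.Agent.KL

open Finset

/-- the value at `x` of the non-vertical line `l = (slope, intercept)` -/
def ev (l : ℝ × ℝ) (x : ℝ) : ℝ := l.1 * x + l.2

/-- the level of a point: number of lines of `Γ` strictly below it -/
noncomputable def level (Γ : Finset (ℝ × ℝ)) (p : ℝ × ℝ) : ℕ :=
  (Γ.filter fun l => ev l p.1 < p.2).card

/-- the `k`-level: closure of the set of points on some line of `Γ` which have level `k` -/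
def kLevel (Γ : Finset (ℝ × ℝ)) (k : ℕ) : Set (ℝ × ℝ) :=
  closure {p | (∃ l ∈ Γ, ev l p.1 = p.2) ∧ level Γ p = k}

/-- `p` is a vertex of the `k`-level: the chain passes at `p` from a line `l` to another
line `l'` of `Γ` -/
def IsVertex (Γ : Finset (ℝ × ℝ)) (k : ℕ) (p : ℝ × ℝ) : Prop :=
  ∃ l ∈ Γ, ∃ l' ∈ Γ, l ≠ l' ∧ ev l p.1 = p.2 ∧ ev l' p.1 = p.2 ∧ ∃ δ > 0,
    (∀ x ∈ Set.Icc (p.1 - δ) p.1, (x, ev l x) ∈ kLevel Γ k) ∧
    (∀ x ∈ Set.Icc p.1 (p.1 + δ), (x, ev l' x) ∈ kLevel Γ k)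

/-- complexity of the `k`-level -/
noncomputable def psi (Γ : Finset (ℝ × ℝ)) (k : ℕ) : ℕ := {p | IsVertex Γ k p}.ncard

/-- `e_k(n)`: the maximum of `psi Γ k` over all sets `Γ` of `n` lines -/
noncomputable def eMax (k n : ℕ) : ℕ :=
  sSup {m | ∃ Γ : Finset (ℝ × ℝ), Γ.card = n ∧ psi Γ k = m}

end Pool.Agent.KL
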