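import Pool.Agent.KL.Defs

/-! Part A: combinatorial description `Pre` gives vertices of the `K`-level. -/

namespace Pool.Agent.KL
open Finset Filter Topology

theorem ev_cont (l : ℝ × ℝ) : Continuous (ev l) := by
  unfold ev; fun_prop

theorem eq_of_common {l l' : ℝ × ℝ} (hne : l ≠ l') {x : ℝ} (h : ev l x = ev l' x) :
    l.1 ≠ l'.1 ∧ x = (l'.2 - l.2) / (l.1 - l'.1) := by
  unfold ev at h
  have h1 : l.1 ≠ l'.1 := by
    intro h1
    apply hne
    ext
    · exact h1
    · rw [h1] at h; linarith
  refine ⟨h1, ?_⟩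
  rw [eq_div_iff (sub_ne_zero.2 h1)]
  linarith

/-- all vertices are intersection points of two lines -/
theorem vertex_subset (Γ : Finset (ℝ × ℝ)) (k : ℕ) :
    {p | IsVertex Γ k p} ⊆ ((Γ ×ˢ Γ).image fun q : (ℝ × ℝ) × (ℝ × ℝ) =>
      (((q.2.2 - q.1.2) / (q.1.1 - q.2.1), ev q.1 ((q.2.2 - q.1.2) / (q.1.1 - q.2.1))) :
        ℝ × ℝ) : Finset (ℝ × ℝ)) := by
  classical
  rintro p ⟨l, hl, l', hl', hne, h1, h2, -⟩
  obtain ⟨-, hx⟩ := eq_of_common hne (h1.trans h2.symm)
  rw [Finset.coe_image]
  refine ⟨(l, l'), by simp [hl, hl'], ?_⟩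
  simp only
  rw [← hx, h1]

theorem vertex_finite (Γ : Finset (ℝ × ℝ)) (k : ℕ) : {p | IsVertex Γ k p}.Finite :=
  (Finset.finite_toSet _).subset (vertex_subset Γ k)

theorem psi_le (Γ : Finset (ℝ × ℝ)) (k : ℕ) : psi Γ k ≤ Γ.card * Γ.card := by
  classical
  unfold psi
  refine (Set.ncard_le_ncard (vertex_subset Γ k) (Finset.finite_toSet _)).trans ?_
  rw [Set.ncard_coe_finset]
  refine Finset.card_image_le.trans ?_
  rw [Finset.card_product]

theorem psi_le_eMax (Γ : Finset (ℝ × ℝ)) (k : ℕ) : psi Γ k ≤ eMax k Γ.card := by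
  unfold eMax
  refine le_csSup ⟨Γ.card * Γ.card, ?_⟩ ⟨Γ, rfl, rfl⟩
  rintro m ⟨Γ', h1, rfl⟩
  rw [← h1]
  exact psi_le Γ' k

theorem side_mem {Γ : Finset (ℝ × ℝ)} {l : ℝ × ℝ} (hl : l ∈ Γ) {k : ℕ} {a b : ℝ} (hab : a < b)
    (h : ∀ x ∈ Set.Ioo a b, level Γ (x, ev l x) = k) :
    ∀ x ∈ Set.Icc a b, (x, ev l x) ∈ kLevel Γ k := by
  intro x hx
  have hc : Continuous fun x : ℝ => ((x, ev l x) : ℝ × ℝ) := by
    have := ev_cont l
    fun_prop
  rw [← closure_Ioo hab.ne] at hx
  have h1 : (x, ev l x) ∈ closure ((fun x : ℝ => ((x, ev l x) : ℝ × ℝ)) '' Set.Ioo a b) :=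
    image_closure_subset_closure_image hc ⟨x, hx, rfl⟩
  refine closure_mono ?_ h1
  rintro _ ⟨y, hy, rfl⟩
  exact ⟨⟨l, hl, rfl⟩, h y hy⟩

/-- a point on exactly two lines -/
theorem vertex_of_two {Γ : Finset (ℝ × ℝ)} {l1 l2 : ℝ × ℝ} (h1 : l1 ∈ Γ) (h2 : l2 ∈ Γ)
    (hs : l1.1 < l2.1) {p : ℝ × ℝ} (hp1 : ev l1 p.1 = p.2) (hp2 : ev l2 p.1 = p.2)
    (ho : ∀ l ∈ Γ, l ≠ l1 → l ≠ l2 → ev l p.1 ≠ p.2) :
    IsVertex Γ (level Γ p) p ∧ IsVertex Γ (level Γ p + 1) p := by
  classical
  have hne : l1 ≠ l2 := fun h => by rw [h] at hs; exact lt_irrefl _ hs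
  -- locally the other lines keep their side
  have hev : ∀ᶠ x in 𝓝 p.1, ∀ l ∈ Γ, l ≠ l1 → l ≠ l2 →
      ((ev l x < ev l1 x ↔ ev l p.1 < p.2) ∧ (ev l x < ev l2 x ↔ ev l p.1 < p.2)) := by
    rw [Finset.eventually_all]
    intro l hl
    by_cases hl1 : l = l1
    · exact Eventually.of_forall fun x h => absurd hl1 h
    by_cases hl2 : l = l2
    · exact Eventually.of_forall fun x _ h => absurd hl2 h
    have key : ∀ l' : ℝ × ℝ, ev l' p.1 = p.2 →
        ∀ᶠ x in 𝓝 p.1, (ev l x < ev l' x ↔ ev l p.1 < p.2) := by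
      intro l' hl'
      rcases lt_or_gt_of_ne (ho l hl hl1 hl2) with h | h
      · have h3 : ∀ᶠ x in 𝓝 p.1, ev l x < ev l' x :=
          (ev_cont l).continuousAt.eventually_lt (ev_cont l').continuousAt (by rw [hl']; exact h)
        filter_upwards [h3] with x hx
        exact ⟨fun _ => h, fun _ => hx⟩
      · have h3 : ∀ᶠ x in 𝓝 p.1, ev l' x < ev l x :=
          (ev_cont l').continuousAt.eventually_lt (ev_cont l).continuousAt (by rw [hl']; exact h)
        filter_upwards [h3] with x hx
        exact ⟨fun h4 => absurd h4 (not_lt.2 hx.le), fun h4 => absurd h4 (not_lt.2 h.le)⟩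
    filter_upwards [key l1 hp1, key l2 hp2] with x hx1 hx2 _ _
    exact ⟨hx1, hx2⟩
  obtain ⟨δ, hδ, hball⟩ := Metric.eventually_nhds_iff_ball.1 hev
  have hd : ∀ x, ev l1 x - ev l2 x = (l2.1 - l1.1) * (p.1 - x) := by
    intro x
    unfold ev at *
    linarith
  have hball' : ∀ x, |x - p.1| < δ → ∀ l ∈ Γ, l ≠ l1 → l ≠ l2 →
      ((ev l x < ev l1 x ↔ ev l p.1 < p.2) ∧ (ev l x < ev l2 x ↔ ev l p.1 < p.2)) := by
    intro x hx
    exact hball x (by rw [Metric.mem_ball, Real.dist_eq]; exact hx)
  have hlt : ∀ x, x < p.1 → ev l2 x < ev l1 x := by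
    intro x hx
    have := hd x
    have h3 : 0 < (l2.1 - l1.1) * (p.1 - x) := mul_pos (by linarith) (by linarith)
    linarith
  have hgt : ∀ x, p.1 < x → ev l1 x < ev l2 x := by
    intro x hx
    have := hd x
    have h3 : 0 < (l2.1 - l1.1) * (x - p.1) := mul_pos (by linarith) (by linarith)
    linarith
  -- the four level computations
  have L : ∀ x, |x - p.1| < δ → (¬ ev l1 x < ev l2 x) → level Γ (x, ev l2 x) = level Γ p := by
    intro x hx h12
    unfold level
    congr 1
    ext l
    simp only [Finset.mem_filter]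
    refine and_congr_right fun hl => ?_
    by_cases hl1 : l = l1
    · subst hl1
      constructor
      · intro h; exact absurd h h12
      · intro h; rw [hp1] at h; exact absurd h (lt_irrefl _)
    by_cases hl2 : l = l2
    · subst hl2
      constructor
      · intro h; exact absurd h (lt_irrefl _)
      · intro h; rw [hp2] at h; exact absurd h (lt_irrefl _)
    exact (hball' x hx l hl hl1 hl2).2
  have L' : ∀ x, |x - p.1| < δ → (¬ ev l2 x < ev l1 x) → level Γ (x, ev l1 x) = level Γ p := by
    intro x hx h12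
    unfold level
    congr 1
    ext l
    simp only [Finset.mem_filter]
    refine and_congr_right fun hl => ?_
    by_cases hl1 : l = l1
    · subst hl1
      constructor
      · intro h; exact absurd h (lt_irrefl _)
      · intro h; rw [hp1] at h; exact absurd h (lt_irrefl _)
    by_cases hl2 : l = l2
    · subst hl2
      constructor
      · intro h; exact absurd h h12
      · intro h; rw [hp2] at h; exact absurd h (lt_irrefl _)
    exact (hball' x hx l hl hl1 hl2).1
  have M : ∀ x, |x - p.1| < δ → (ev l1 x < ev l2 x) → level Γ (x, ev l2 x) = level Γ p + 1 := by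
    intro x hx h12
    unfold level
    have h3 : (Γ.filter fun l => ev l (x, ev l2 x).1 < (x, ev l2 x).2) =
        insert l1 (Γ.filter fun l => ev l p.1 < p.2) := by
      ext l
      simp only [Finset.mem_filter, Finset.mem_insert]
      by_cases hl1 : l = l1
      · subst hl1
        simp [h1, h12]
      by_cases hl2 : l = l2
      · subst hl2
        constructor
        · intro h; exact absurd h.2 (lt_irrefl _)
        · intro h
          rcases h with h | h
          · exact absurd h hl1
          · rw [hp2] at h; exact absurd h.2 (lt_irrefl _)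
      constructor
      · intro h; exact Or.inr ⟨h.1, (hball' x hx l h.1 hl1 hl2).2.1 h.2⟩
      · intro h
        rcases h with h | h
        · exact absurd h hl1
        · exact ⟨h.1, (hball' x hx l h.1 hl1 hl2).2.2 h.2⟩
    rw [h3, Finset.card_insert_of_notMem]
    intro h
    have := (Finset.mem_filter.1 h).2
    rw [hp1] at this
    exact lt_irrefl _ this
  have M' : ∀ x, |x - p.1| < δ → (ev l2 x < ev l1 x) → level Γ (x, ev l1 x) = level Γ p + 1 := by
    intro x hx h12
    unfold level
    have h3 : (Γ.filter fun l => ev l (x, ev l1 x).1 < (x, ev l1 x).2) =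
        insert l2 (Γ.filter fun l => ev l p.1 < p.2) := by
      ext l
      simp only [Finset.mem_filter, Finset.mem_insert]
      by_cases hl2 : l = l2
      · subst hl2
        simp [h2, h12]
      by_cases hl1 : l = l1
      · subst hl1
        constructor
        · intro h; exact absurd h.2 (lt_irrefl _)
        · intro h
          rcases h with h | h
          · exact absurd h hl2
          · rw [hp1] at h; exact absurd h.2 (lt_irrefl _)
      constructor
      · intro h; exact Or.inr ⟨h.1, (hball' x hx l h.1 hl1 hl2).1.1 h.2⟩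
      · intro h
        rcases h with h | h
        · exact absurd h hl2
        · exact ⟨h.1, (hball' x hx l h.1 hl1 hl2).1.2 h.2⟩
    rw [h3, Finset.card_insert_of_notMem]
    intro h
    have := (Finset.mem_filter.1 h).2
    rw [hp2] at this
    exact lt_irrefl _ this
  have hI1 : ∀ x ∈ Set.Ioo (p.1 - δ / 2) p.1, |x - p.1| < δ ∧ x < p.1 := by
    intro x hx
    refine ⟨?_, hx.2⟩
    rw [abs_lt]
    constructor <;> linarith [hx.1, hx.2]
  have hI2 : ∀ x ∈ Set.Ioo p.1 (p.1 + δ / 2), |x - p.1| < δ ∧ p.1 < x := by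
    intro x hx
    refine ⟨?_, hx.1⟩
    rw [abs_lt]
    constructor <;> linarith [hx.1, hx.2]
  constructor
  · refine ⟨l2, h2, l1, h1, hne.symm, hp2, hp1, δ / 2, by positivity, ?_, ?_⟩
    · refine side_mem h2 (by linarith) fun x hx => ?_
      exact L x (hI1 x hx).1 (not_lt.2 (hlt x (hI1 x hx).2).le)
    · refine side_mem h1 (by linarith) fun x hx => ?_
      exact L' x (hI2 x hx).1 (not_lt.2 (hgt x (hI2 x hx).2).le)
  · refine ⟨l1, h1, l2, h2, hne, hp1, hp2, δ / 2, by positivity, ?_, ?_⟩
    · refine side_mem h1 (by linarith) fun x hx => ?_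
      exact M' x (hI1 x hx).1 (hlt x (hI1 x hx).2)
    · refine side_mem h2 (by linarith) fun x hx => ?_
      exact M x (hI2 x hx).1 (hgt x (hI2 x hx).2)

theorem partA (n m K : ℕ) (h : Pre n m K) : m ≤ eMax K n ∧ m ≤ eMax (K + 1) n := by
  classical
  obtain ⟨ι, κ, fι, fκ, s, c, lo, up, X, Y, hn, hm, hs, hlo, hup, hne, hK, hinj⟩ := h
  let used : ι → Prop := fun i => ∃ e, i = lo e ∨ i = up e
  -- weights for the unused lines
  let w : ι → ℝ := fun i => if used i then 0 else ((Fintype.equivFin ι i : ℕ) : ℝ) + 1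
  have hwpos : ∀ i, ¬ used i → 0 < w i := by
    intro i hi
    simp only [w, if_neg hi]
    positivity
  have hw0 : ∀ i, used i → w i = 0 := by
    intro i hi
    simp only [w, if_pos hi]
  have hwinj : ∀ i j, w i = w j → ¬ used i → ¬ used j → i = j := by
    intro i j hij hi hj
    simp only [w, if_neg hi, if_neg hj] at hij
    have h1 : ((Fintype.equivFin ι i : ℕ) : ℝ) = ((Fintype.equivFin ι j : ℕ) : ℝ) := by linarith
    have h2 : (Fintype.equivFin ι i : ℕ) = (Fintype.equivFin ι j : ℕ) := by exact_mod_cast h1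
    exact (Fintype.equivFin ι).injective (Fin.ext h2)
  have hused : ∀ i j, used i → i ≠ j → s i = s j → c i ≠ c j := by
    rintro i j ⟨e, he⟩ hij hsij hcij
    rcases he with he | he
    · by_cases hj : j = up e
      · have := hs e
        rw [← he, ← hj, hsij] at this
        exact lt_irrefl _ this
      · refine hne e j (fun h => hij (he.trans h.symm)) hj ?_
        rw [← hsij, ← hcij, he]
        exact hlo e
    · by_cases hj : j = lo e
      · have := hs e
        rw [← he, ← hj, hsij] at this
        exact lt_irrefl _ this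
      · refine hne e j hj (fun h => hij (he.trans h.symm)) ?_
        rw [← hsij, ← hcij, he]
        exact hup e
  have hE1 : ∀ᶠ r in 𝓝[>] (0 : ℝ), ∀ i j, i ≠ j → s i = s j →
      c i + r * w i ≠ c j + r * w j := by
    rw [eventually_all]; intro i
    rw [eventually_all]; intro j
    by_cases hij : i = j
    · exact Eventually.of_forall fun r h => absurd hij h
    by_cases hsij : s i = s j
    swap
    · exact Eventually.of_forall fun r _ h => absurd h hsij
    by_cases hcij : c i = c j
    · have hw : w i ≠ w j := by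
        intro hw
        by_cases hi : used i
        · exact hused i j hi hij hsij hcij
        by_cases hj : used j
        · exact hused j i hj (Ne.symm hij) hsij.symm hcij.symm
        exact hij (hwinj i j hw hi hj)
      filter_upwards [self_mem_nhdsWithin] with r hr _ _ h
      rw [hcij] at h
      have : r * (w i - w j) = 0 := by linarith
      rcases mul_eq_zero.1 this with h | h
      · exact (ne_of_gt hr) h
      · exact hw (by linarith)
    · have hcont : ContinuousAt (fun r : ℝ => (c i + r * w i) - (c j + r * w j)) 0 := by fun_prop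
      have hne0 : (fun r : ℝ => (c i + r * w i) - (c j + r * w j)) 0 ≠ 0 := by
        simp only [zero_mul, add_zero]
        exact sub_ne_zero.2 hcij
      filter_upwards [nhdsWithin_le_nhds (hcont.eventually_ne hne0)] with r hr _ _ h
      exact hr (by linarith)
  have hE2 : ∀ᶠ r in 𝓝[>] (0 : ℝ), ∀ e i, i ≠ lo e → i ≠ up e →
      (s i * X e + (c i + r * w i) ≠ Y e ∧
        (s i * X e + (c i + r * w i) < Y e ↔ s i * X e + c i < Y e)) := by
    rw [eventually_all]; intro e
    rw [eventually_all]; intro i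
    by_cases h1 : i = lo e
    · exact Eventually.of_forall fun r h => absurd h1 h
    by_cases h2 : i = up e
    · exact Eventually.of_forall fun r _ h => absurd h2 h
    have hcont : ContinuousAt (fun r : ℝ => s i * X e + (c i + r * w i)) 0 := by fun_prop
    have h0 : (fun r : ℝ => s i * X e + (c i + r * w i)) 0 = s i * X e + c i := by simp
    rcases lt_or_gt_of_ne (hne e i h1 h2) with h | h
    · have h3 : ∀ᶠ r in 𝓝 (0 : ℝ), s i * X e + (c i + r * w i) < Y e :=
        hcont.eventually_lt continuousAt_const (by simpa using h)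
      filter_upwards [nhdsWithin_le_nhds h3] with r hr _ _
      exact ⟨hr.ne, fun _ => h, fun _ => hr⟩
    · have h3 : ∀ᶠ r in 𝓝 (0 : ℝ), Y e < s i * X e + (c i + r * w i) :=
        continuousAt_const.eventually_lt hcont (by simpa using h)
      filter_upwards [nhdsWithin_le_nhds h3] with r hr _ _
      exact ⟨hr.ne', fun h4 => absurd h4 (not_lt.2 hr.le), fun h4 => absurd h4 (not_lt.2 h.le)⟩
  obtain ⟨r, hr1, hr2⟩ := (hE1.and hE2).exists
  let f : ι → ℝ × ℝ := fun i => (s i, c i + r * w i)
  have hf : Function.Injective f := by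
    intro i j hij
    by_contra hne'
    have h1 : s i = s j := congrArg Prod.fst hij
    have h2 : c i + r * w i = c j + r * w j := congrArg Prod.snd hij
    exact hr1 i j hne' h1 h2
  let Γ : Finset (ℝ × ℝ) := univ.image f
  have hΓ : Γ.card = n := by
    rw [Finset.card_image_of_injective _ hf, Finset.card_univ, hn]
  have hev : ∀ i x, ev (f i) x = s i * x + (c i + r * w i) := fun i x => rfl
  have hlev : ∀ e, level Γ (X e, Y e) = K := by
    intro e
    have hwlo : w (lo e) = 0 := hw0 _ ⟨e, Or.inl rfl⟩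
    have hwup : w (up e) = 0 := hw0 _ ⟨e, Or.inr rfl⟩
    unfold level
    have h1 : (Γ.filter fun l => ev l (X e, Y e).1 < (X e, Y e).2) =
        (univ.filter fun i => s i * X e + c i < Y e).image f := by
      ext l
      simp only [Γ, Finset.mem_filter, Finset.mem_image, Finset.mem_univ, true_and]
      constructor
      · rintro ⟨⟨i, rfl⟩, hi⟩
        refine ⟨i, ?_, rfl⟩
        rw [hev] at hi
        by_cases h1 : i = lo e
        · subst h1; rw [hwlo] at hi; simpa using hi
        by_cases h2 : i = up e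
        · subst h2; rw [hwup] at hi; simpa using hi
        exact (hr2 e i h1 h2).2.1 hi
      · rintro ⟨i, hi, rfl⟩
        refine ⟨⟨i, rfl⟩, ?_⟩
        rw [hev]
        by_cases h1 : i = lo e
        · subst h1; rw [hwlo]; simpa using hi
        by_cases h2 : i = up e
        · subst h2; rw [hwup]; simpa using hi
        exact (hr2 e i h1 h2).2.2 hi
    rw [h1, Finset.card_image_of_injective _ hf, hK e]
  have hv : ∀ e, IsVertex Γ K (X e, Y e) ∧ IsVertex Γ (K + 1) (X e, Y e) := by
    intro e
    have hwlo : w (lo e) = 0 := hw0 _ ⟨e, Or.inl rfl⟩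
    have hwup : w (up e) = 0 := hw0 _ ⟨e, Or.inr rfl⟩
    have h := vertex_of_two (Γ := Γ) (l1 := f (lo e)) (l2 := f (up e)) (p := (X e, Y e))
      (Finset.mem_image_of_mem _ (Finset.mem_univ _))
      (Finset.mem_image_of_mem _ (Finset.mem_univ _)) (hs e)
      (by rw [hev, hwlo]; simpa using hlo e) (by rw [hev, hwup]; simpa using hup e) (by
        intro l hl h1 h2
        obtain ⟨i, -, rfl⟩ := Finset.mem_image.1 hl
        rw [hev]
        exact (hr2 e i (fun h => h1 (by rw [h])) (fun h => h2 (by rw [h]))).1)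
    rw [hlev e] at h
    exact h
  have hcard : ∀ k, (∀ e, IsVertex Γ k (X e, Y e)) → m ≤ eMax k n := by
    intro k hk
    refine le_trans ?_ (hΓ ▸ psi_le_eMax Γ k)
    unfold psi
    have h1 : Set.ncard (Set.range fun e => ((X e, Y e) : ℝ × ℝ)) = m := by
      rw [← Set.image_univ, Set.ncard_image_of_injective _ hinj, Set.ncard_univ,
        Nat.card_eq_fintype_card, hm]
    rw [← h1]
    refine Set.ncard_le_ncard ?_ (vertex_finite Γ k)
    rintro _ ⟨e, rfl⟩
    exact hk e
  exact ⟨hcard K fun e => (hv e).1, hcard (K + 1) fun e => (hv e).2⟩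

end Pool.Agent.KL
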