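import Pool.Agent.KL.Defs

/-! Part B: from the base family to the final theorem. -/

namespace Pool.Agent.KL
open Finset Filter Topology

theorem Pre.addAbove {n m K : ℕ} (h : Pre n m K) : Pre (n + 1) m K := by
  classical
  obtain ⟨ι, κ, fι, fκ, s, c, lo, up, X, Y, hn, hm, hs, hlo, hup, hne, hK, hinj⟩ := h
  obtain ⟨C, hC⟩ := (Set.finite_range Y).bddAbove
  have hC' : ∀ e, Y e < C + 1 := fun e => by
    have := hC ⟨e, rfl⟩
    linarith
  refine ⟨Option ι, κ, inferInstance, fκ, fun o => o.elim 0 s, fun o => o.elim (C + 1) c,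
    fun e => some (lo e), fun e => some (up e), X, Y, ?_, hm, hs, hlo, hup, ?_, ?_, hinj⟩
  · rw [Fintype.card_option, hn]
  · rintro e (_ | i) h1 h2
    · simp only [Option.elim]
      have := hC' e
      intro h; linarith
    · exact hne e i (fun h => h1 (by rw [h])) (fun h => h2 (by rw [h]))
  · intro e
    rw [Finset.card_filter, Fintype.sum_option]
    have h1 : ¬ ((Option.elim (none : Option ι) (0 : ℝ) s) * X e +
        (Option.elim (none : Option ι) (C + 1) c) < Y e) := by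
      simp only [Option.elim]
      have := hC' e
      intro h; linarith
    rw [if_neg h1, zero_add]
    have h2 := hK e
    rw [Finset.card_filter] at h2
    exact h2

theorem Pre.addBelow {n m K : ℕ} (h : Pre n m K) : Pre (n + 1) m (K + 1) := by
  classical
  obtain ⟨ι, κ, fι, fκ, s, c, lo, up, X, Y, hn, hm, hs, hlo, hup, hne, hK, hinj⟩ := h
  obtain ⟨C, hC⟩ := (Set.finite_range Y).bddBelow
  have hC' : ∀ e, C - 1 < Y e := fun e => by
    have := hC ⟨e, rfl⟩
    linarith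
  refine ⟨Option ι, κ, inferInstance, fκ, fun o => o.elim 0 s, fun o => o.elim (C - 1) c,
    fun e => some (lo e), fun e => some (up e), X, Y, ?_, hm, hs, hlo, hup, ?_, ?_, hinj⟩
  · rw [Fintype.card_option, hn]
  · rintro e (_ | i) h1 h2
    · simp only [Option.elim]
      have := hC' e
      intro h; linarith
    · exact hne e i (fun h => h1 (by rw [h])) (fun h => h2 (by rw [h]))
  · intro e
    rw [Finset.card_filter, Fintype.sum_option]
    have h1 : (Option.elim (none : Option ι) (0 : ℝ) s) * X e +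
        (Option.elim (none : Option ι) (C - 1) c) < Y e := by
      simp only [Option.elim]
      have := hC' e
      linarith
    rw [if_pos h1, add_comm]
    have h2 := hK e
    rw [Finset.card_filter] at h2
    congr 1

theorem Pre.addMany {n m K : ℕ} (h : Pre n m K) (a b : ℕ) : Pre (n + a + b) m (K + a) := by
  have h1 : ∀ a, Pre (n + a) m (K + a) := by
    intro a
    induction a with
    | zero => exact h
    | succ a ih => exact ih.addBelow
  have h2 : ∀ b, Pre (n + a + b) m (K + a) := by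
    intro b
    induction b with
    | zero => exact h1 a
    | succ b ih => exact ih.addAbove
  exact h2 b

theorem Pre.extend {n m K n' K' : ℕ} (h : Pre n m K) (hK : K ≤ K') (hn : n + (K' - K) ≤ n') :
    Pre n' m K' := by
  have h1 := h.addMany (K' - K) (n' - (n + (K' - K)))
  have h2 : n + (K' - K) + (n' - (n + (K' - K))) = n' := by omega
  have h3 : K + (K' - K) = K' := by omega
  rwa [h2, h3] at h1

theorem Pre.reflect {n m K : ℕ} (h : Pre n m K) : Pre n m (n - 2 - K) := by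
  classical
  obtain ⟨ι, κ, fι, fκ, s, c, lo, up, X, Y, hn, hm, hs, hlo, hup, hne, hK, hinj⟩ := h
  refine ⟨ι, κ, fι, fκ, fun i => - s i, fun i => - c i, up, lo, X, fun e => - Y e, hn, hm,
    fun e => neg_lt_neg (hs e), ?_, ?_, ?_, ?_, ?_⟩
  · intro e; have := hup e; simp only; linarith
  · intro e; have := hlo e; simp only; linarith
  · intro e i h1 h2 h; exact hne e i h2 h1 (by simp only at h; linarith)
  · intro e
    have h1 : lo e ≠ up e := fun h => by have := hs e; rw [h] at this; exact lt_irrefl _ this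
    have h2 : (univ : Finset ι) = ((univ.filter fun i => s i * X e + c i < Y e) ∪ {lo e, up e}) ∪
        (univ.filter fun i => - s i * X e + - c i < - Y e) := by
      ext i
      simp only [Finset.mem_univ, Finset.mem_union, Finset.mem_filter, true_and,
        Finset.mem_insert, Finset.mem_singleton, true_iff]
      by_cases h3 : i = lo e
      · exact Or.inl (Or.inr (Or.inl h3))
      by_cases h4 : i = up e
      · exact Or.inl (Or.inr (Or.inr h4))
      rcases lt_or_gt_of_ne (hne e i h3 h4) with h | h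
      · exact Or.inl (Or.inl h)
      · exact Or.inr (by linarith)
    have h3 : Disjoint (univ.filter fun i => s i * X e + c i < Y e) ({lo e, up e} : Finset ι) := by
      rw [Finset.disjoint_left]
      intro i hi hi'
      have h4 := (Finset.mem_filter.1 hi).2
      rcases Finset.mem_insert.1 hi' with h5 | h5
      · rw [h5, hlo e] at h4; exact lt_irrefl _ h4
      · rw [Finset.mem_singleton.1 h5, hup e] at h4; exact lt_irrefl _ h4
    have h4 : Disjoint ((univ.filter fun i => s i * X e + c i < Y e) ∪ {lo e, up e})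
        (univ.filter fun i => - s i * X e + - c i < - Y e) := by
      rw [Finset.disjoint_left]
      intro i hi hi'
      have h5 := (Finset.mem_filter.1 hi').2
      rcases Finset.mem_union.1 hi with h6 | h6
      · have := (Finset.mem_filter.1 h6).2; linarith
      · rcases Finset.mem_insert.1 h6 with h7 | h7
        · have := hlo e; rw [h7] at h5; linarith
        · have := hup e; rw [Finset.mem_singleton.1 h7] at h5; linarith
    have h5 := congrArg Finset.card h2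
    rw [Finset.card_union_of_disjoint h4, Finset.card_union_of_disjoint h3, Finset.card_univ, hn,
      hK e, Finset.card_pair h1] at h5
    show (univ.filter fun i => - s i * X e + - c i < - Y e).card = n - 2 - K
    omega
  · intro e e' h
    apply hinj
    simp only [Prod.mk.injEq, neg_inj] at h ⊢
    exact h

theorem Pre.copies {n m K : ℕ} (h : Pre n m K) (q : ℕ) : Pre (q * n) (q * m) K := by
  classical
  obtain ⟨ι, κ, fι, fκ, s, c, lo, up, X, Y, hn, hm, hs, hlo, hup, hne, hK, hinj⟩ := h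
  have hE : ∀ᶠ r in 𝓝[>] (0 : ℝ), ∀ (j j' : Fin q) (e : κ) (i : ι), j ≠ j' →
      (-((j : ℕ) : ℝ) ^ 2 - 2 * ((j : ℕ) : ℝ) * r * X e + r ^ 2 * Y e) <
        (-2 * ((j' : ℕ) : ℝ) + r * s i) * (((j : ℕ) : ℝ) + r * X e) +
          (((j' : ℕ) : ℝ) ^ 2 - r * s i * ((j' : ℕ) : ℝ) + r ^ 2 * c i) := by
    rw [eventually_all]; intro j
    rw [eventually_all]; intro j'
    rw [eventually_all]; intro e
    rw [eventually_all]; intro i
    by_cases hj : j = j'
    · exact Eventually.of_forall fun r h => absurd hj h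
    have h1 : ((j : ℕ) : ℝ) ≠ ((j' : ℕ) : ℝ) := by
      intro h
      exact hj (Fin.ext (by exact_mod_cast h))
    have h2 : 0 < (((j : ℕ) : ℝ) - ((j' : ℕ) : ℝ)) ^ 2 := by
      have := sub_ne_zero.2 h1
      positivity
    have hc1 : ContinuousAt (fun r : ℝ => (-((j : ℕ) : ℝ) ^ 2 - 2 * ((j : ℕ) : ℝ) * r * X e +
      r ^ 2 * Y e)) 0 := by fun_prop
    have hc2 : ContinuousAt (fun r : ℝ => (-2 * ((j' : ℕ) : ℝ) + r * s i) *
      (((j : ℕ) : ℝ) + r * X e) +
          (((j' : ℕ) : ℝ) ^ 2 - r * s i * ((j' : ℕ) : ℝ) + r ^ 2 * c i)) 0 := by fun_prop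
    have h3 := hc1.eventually_lt hc2 (by
      ring_nf
      ring_nf at h2
      linarith)
    filter_upwards [nhdsWithin_le_nhds h3] with r hr _
    exact hr
  obtain ⟨r, hr, hr0⟩ := (hE.and self_mem_nhdsWithin).exists
  have hr0' : (0 : ℝ) < r := hr0
  have key : ∀ (j : Fin q) (e : κ) (i : ι),
      (-2 * ((j : ℕ) : ℝ) + r * s i) * (((j : ℕ) : ℝ) + r * X e) +
          (((j : ℕ) : ℝ) ^ 2 - r * s i * ((j : ℕ) : ℝ) + r ^ 2 * c i) -
      (-((j : ℕ) : ℝ) ^ 2 - 2 * ((j : ℕ) : ℝ) * r * X e + r ^ 2 * Y e) =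
      r ^ 2 * (s i * X e + c i - Y e) := by
    intro j e i; ring
  have key0 : ∀ (j : Fin q) (e : κ) (i : ι), s i * X e + c i = Y e →
      (-2 * ((j : ℕ) : ℝ) + r * s i) * (((j : ℕ) : ℝ) + r * X e) +
          (((j : ℕ) : ℝ) ^ 2 - r * s i * ((j : ℕ) : ℝ) + r ^ 2 * c i) =
      (-((j : ℕ) : ℝ) ^ 2 - 2 * ((j : ℕ) : ℝ) * r * X e + r ^ 2 * Y e) := by
    intro j e i h
    have h1 := key j e i
    rw [h, sub_self, mul_zero] at h1
    linarith
  refine ⟨Fin q × ι, Fin q × κ, inferInstance, inferInstance,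
    fun p => -2 * ((p.1 : ℕ) : ℝ) + r * s p.2,
    fun p => ((p.1 : ℕ) : ℝ) ^ 2 - r * s p.2 * ((p.1 : ℕ) : ℝ) + r ^ 2 * c p.2,
    fun p => (p.1, lo p.2), fun p => (p.1, up p.2),
    fun p => ((p.1 : ℕ) : ℝ) + r * X p.2,
    fun p => -((p.1 : ℕ) : ℝ) ^ 2 - 2 * ((p.1 : ℕ) : ℝ) * r * X p.2 + r ^ 2 * Y p.2,
    ?_, ?_, ?_, ?_, ?_, ?_, ?_, ?_⟩
  · rw [Fintype.card_prod, Fintype.card_fin, hn]
  · rw [Fintype.card_prod, Fintype.card_fin, hm]
  · rintro ⟨j, e⟩
    have := mul_lt_mul_of_pos_left (hs e) hr0'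
    simp only
    linarith
  · rintro ⟨j, e⟩
    exact key0 j e (lo e) (hlo e)
  · rintro ⟨j, e⟩
    exact key0 j e (up e) (hup e)
  · rintro ⟨j, e⟩ ⟨j', i⟩ h1 h2
    by_cases hj : j = j'
    · subst hj
      have h3 : i ≠ lo e := fun h => h1 (by rw [h])
      have h4 : i ≠ up e := fun h => h2 (by rw [h])
      intro h
      have h5 := key j e i
      simp only at h
      rw [h, sub_self] at h5
      have h6 : s i * X e + c i - Y e ≠ 0 := sub_ne_zero.2 (hne e i h3 h4)
      have h7 : r ^ 2 ≠ 0 := by positivity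
      exact (mul_ne_zero h7 h6) h5.symm
    · exact (hr j j' e i hj).ne'
  · rintro ⟨j, e⟩
    rw [Finset.card_filter, Fintype.sum_prod_type]
    rw [Finset.sum_eq_single j]
    · have h2 := hK e
      rw [Finset.card_filter] at h2
      rw [← h2]
      refine Finset.sum_congr rfl fun i _ => ?_
      simp only
      congr 1
      have h5 := key j e i
      have h7 : 0 < r ^ 2 := by positivity
      rw [eq_iff_iff]
      constructor
      · intro h
        have h8 : r ^ 2 * (s i * X e + c i - Y e) < 0 := by rw [← h5]; linarith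
        have h9 : s i * X e + c i - Y e < 0 := by
          by_contra hcon
          push Not at hcon
          have := mul_nonneg h7.le hcon
          linarith
        linarith
      · intro h
        have h8 : r ^ 2 * (s i * X e + c i - Y e) < 0 :=
          mul_neg_of_pos_of_neg h7 (by linarith)
        linarith
    · intro j' _ hj
      refine Finset.sum_eq_zero fun i _ => ?_
      rw [if_neg]
      exact not_lt.2 (hr j j' e i (Ne.symm hj)).le
    · intro h; exact absurd (Finset.mem_univ _) h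
  · rintro ⟨j, e⟩ ⟨j', e'⟩ h
    simp only [Prod.mk.injEq] at h
    by_cases hj : j = j'
    · subst hj
      have h1 : X e = X e' := by
        have h2 : r * X e = r * X e' := by linarith [h.1]
        exact mul_left_cancel₀ hr0'.ne' h2
      have h2 : Y e = Y e' := by
        have h3 := h.2
        rw [h1] at h3
        have h4 : r ^ 2 * Y e = r ^ 2 * Y e' := by linarith
        exact mul_left_cancel₀ (by positivity) h4
      have h3 : e = e' := hinj (by simp only [h1, h2])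
      rw [h3]
    · exfalso
      have h1 := hr j j' e (lo e') hj
      have h2 := key0 j' e' (lo e') (hlo e')
      rw [h.1, h.2, h2] at h1
      exact lt_irrefl _ h1

theorem pre_base : Pre 2 1 0 := by
  refine ⟨Fin 2, Fin 1, inferInstance, inferInstance, ![0, 1], fun _ => 0, fun _ => 0,
    fun _ => 1, fun _ => 0, fun _ => 0, by simp, by simp, by simp, by simp, by simp, ?_, ?_, ?_⟩
  · intro e i h1 h2
    fin_cases i
    · exact absurd rfl h1
    · exact absurd rfl h2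
  · intro e
    simp
  · intro e e' _
    exact Subsingleton.elim _ _

theorem Pre.two_le {n m K : ℕ} (h : Pre n m K) (hm0 : 0 < m) : K + 2 ≤ n := by
  classical
  obtain ⟨ι, κ, fι, fκ, s, c, lo, up, X, Y, hn, hm, hs, hlo, hup, hne, hK, hinj⟩ := h
  have : Nonempty κ := Fintype.card_pos_iff.1 (hm ▸ hm0)
  obtain ⟨e⟩ := this
  have h1 : lo e ≠ up e := fun h => by have := hs e; rw [h] at this; exact lt_irrefl _ this
  have h3 : Disjoint (univ.filter fun i => s i * X e + c i < Y e) ({lo e, up e} : Finset ι) := by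
    rw [Finset.disjoint_left]
    intro i hi hi'
    have h4 := (Finset.mem_filter.1 hi).2
    rcases Finset.mem_insert.1 hi' with h5 | h5
    · rw [h5, hlo e] at h4; exact lt_irrefl _ h4
    · rw [Finset.mem_singleton.1 h5, hup e] at h4; exact lt_irrefl _ h4
  have h4 := Finset.card_le_univ ((univ.filter fun i => s i * X e + c i < Y e) ∪ {lo e, up e})
  rw [Finset.card_union_of_disjoint h3, hK e, Finset.card_pair h1, hn] at h4
  exact h4

theorem block_bound {n k n0 m0 K0 : ℕ} (h : Pre n0 m0 K0) (hn0 : 0 < n0) (hK0 : K0 ≤ k)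
    (h1 : n0 ≤ n - k) (h2 : 2 * k ≤ n) : ∃ m, Pre n m k ∧ n * m0 ≤ 4 * n0 * m := by
  set q := (n - k) / n0 with hq
  have hq1 : 1 ≤ q := (Nat.one_le_div_iff hn0).2 h1
  have hq2 : q * n0 ≤ n - k := Nat.div_mul_le_self _ _
  have hq3 : n - k < (q + 1) * n0 := by
    have h4 := Nat.lt_mul_div_succ (n - k) hn0
    rw [← hq] at h4
    calc n - k < n0 * (q + 1) := h4
      _ = (q + 1) * n0 := by ring
  refine ⟨q * m0, (h.copies q).extend hK0 (by omega), ?_⟩
  have h3 : n - k ≤ 2 * (q * n0) := by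
    have : (q + 1) * n0 ≤ 2 * (q * n0) := by nlinarith
    omega
  have h4 : n ≤ 4 * (q * n0) := by omega
  calc n * m0 ≤ 4 * (q * n0) * m0 := Nat.mul_le_mul_right _ h4
    _ = 4 * n0 * (q * m0) := by ring

theorem exists_t (N : ℕ) (hN : 1 ≤ N) : ∃ t : ℕ, 2 ^ (4 * t ^ 3) ≤ N ∧
    N < 2 ^ (4 * (t + 1) ^ 3) := by
  classical
  have hex : ∃ t : ℕ, N < 2 ^ (4 * (t + 1) ^ 3) := by
    refine ⟨N, ?_⟩
    have h1 : N ≤ 4 * (N + 1) ^ 3 := by nlinarith [Nat.zero_le N, sq_nonneg N, Nat.zero_le (N ^ 3)]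
    exact lt_of_lt_of_le Nat.lt_two_pow_self (Nat.pow_le_pow_right (by norm_num) h1)
  refine ⟨Nat.find hex, ?_, Nat.find_spec hex⟩
  rcases Nat.eq_zero_or_pos (Nat.find hex) with h | h
  · rw [h]; simpa using hN
  · have h1 := Nat.find_min hex (Nat.sub_lt h one_pos)
    have h2 : Nat.find hex - 1 + 1 = Nat.find hex := Nat.sub_add_cancel h
    rw [h2] at h1
    exact not_lt.1 h1

theorem exists_pre_bound
    (base : ∃ t0 : ℕ, ∀ t ≥ t0, ∃ n m K : ℕ, Pre n m K ∧ 0 < m ∧
      n ≤ 2 ^ (4 * t ^ 3) ∧ n * 2 ^ (t ^ 2 / 2) ≤ m) :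
    ∃ c : ℝ, 0 < c ∧ ∀ n k : ℕ, 2 ≤ n → 2 * k + 1 ≤ n → ∃ m : ℕ, Pre n m k ∧
      c * n * Real.exp (c * (Real.log ((k + 1 : ℕ) : ℝ)) ^ ((2 : ℝ) / 3)) ≤ m := by
  obtain ⟨t0, ht0⟩ := base
  set T : ℕ := max t0 1 with hT
  have hT1 : 1 ≤ T := le_max_right _ _
  refine ⟨min (1 / 50) (Real.exp (-(4 * (T : ℝ) ^ 2)) / 8), by positivity, fun n k hn hk => ?_⟩
  set c : ℝ := min (1 / 50) (Real.exp (-(4 * (T : ℝ) ^ 2)) / 8) with hc
  have hc0 : 0 < c := by positivity
  have hc1 : c ≤ 1 / 50 := min_le_left _ _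
  have hc2 : c ≤ Real.exp (-(4 * (T : ℝ) ^ 2)) / 8 := min_le_right _ _
  have hn0 : (0 : ℝ) ≤ n := Nat.cast_nonneg _
  obtain ⟨t, hP, hP'⟩ := exists_t (k + 1) (by omega)
  set L := Real.log ((k + 1 : ℕ) : ℝ) with hL
  have hL0 : 0 ≤ L := Real.log_nonneg (by push_cast; linarith [(Nat.cast_nonneg k : (0 : ℝ) ≤ k)])
  have hlog2 : Real.log 2 < 0.6931471808 := Real.log_two_lt_d9
  have hlog2' : 0.6931471803 < Real.log 2 := Real.log_two_gt_d9
  have hL1 : L ≤ (2 * ((t : ℝ) + 1)) ^ 3 := by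
    have h1 : ((k + 1 : ℕ) : ℝ) ≤ (2 : ℝ) ^ (4 * (t + 1) ^ 3) := by
      exact_mod_cast hP'.le
    have h2 : L ≤ Real.log ((2 : ℝ) ^ (4 * (t + 1) ^ 3)) :=
      Real.log_le_log (by positivity) h1
    rw [Real.log_pow] at h2
    push_cast at h2
    have h3 : 0 ≤ ((t : ℝ) + 1) ^ 3 := by positivity
    nlinarith
  have hL2 : L ^ ((2 : ℝ) / 3) ≤ 4 * ((t : ℝ) + 1) ^ 2 := by
    have h1 := Real.rpow_le_rpow hL0 hL1 (by norm_num : (0 : ℝ) ≤ 2 / 3)
    have h2 : ((2 * ((t : ℝ) + 1)) ^ 3) ^ ((2 : ℝ) / 3) = (2 * ((t : ℝ) + 1)) ^ 2 := by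
      rw [← Real.rpow_natCast, ← Real.rpow_mul (by positivity), ← Real.rpow_natCast]
      norm_num
    rw [h2] at h1
    linarith [h1, (by ring : (2 * ((t : ℝ) + 1)) ^ 2 = 4 * ((t : ℝ) + 1) ^ 2)]
  have hL3 : 0 ≤ L ^ ((2 : ℝ) / 3) := Real.rpow_nonneg hL0 _
  by_cases htT : T ≤ t
  · obtain ⟨n0, m0, K0, hpre, hm0, hn0', hm0'⟩ := ht0 t ((le_max_left _ _).trans htT)
    have hK2 := hpre.two_le hm0
    obtain ⟨m, hm, hm'⟩ := block_bound (n := n) (k := k) hpre (by omega) (by omega)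
      (by omega) (by omega)
    refine ⟨m, hm, ?_⟩
    have h1 : n * 2 ^ (t ^ 2 / 2) ≤ 4 * m := by
      have h2 : n0 * (n * 2 ^ (t ^ 2 / 2)) ≤ n0 * (4 * m) := by
        calc n0 * (n * 2 ^ (t ^ 2 / 2)) = n * (n0 * 2 ^ (t ^ 2 / 2)) := by ring
          _ ≤ n * m0 := Nat.mul_le_mul_left _ hm0'
          _ ≤ 4 * n0 * m := hm'
          _ = n0 * (4 * m) := by ring
      exact Nat.le_of_mul_le_mul_left h2 (by omega)
    have h1' : (n : ℝ) * 2 ^ (t ^ 2 / 2) ≤ 4 * m := by exact_mod_cast h1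
    have ht1 : (1 : ℝ) ≤ t := by exact_mod_cast hT1.trans htT
    have h2 : (2 : ℝ) ^ (t ^ 2 / 2) = Real.exp (((t ^ 2 / 2 : ℕ) : ℝ) * Real.log 2) := by
      rw [Real.exp_nat_mul, Real.exp_log (by norm_num)]
    have h3 : ((t : ℝ) ^ 2 - 1) / 2 ≤ ((t ^ 2 / 2 : ℕ) : ℝ) := by
      have h4 : t ^ 2 ≤ 2 * (t ^ 2 / 2) + 1 := by omega
      have h5 : (t : ℝ) ^ 2 ≤ 2 * ((t ^ 2 / 2 : ℕ) : ℝ) + 1 := by exact_mod_cast h4
      linarith
    have h4 : c * L ^ ((2 : ℝ) / 3) ≤ 0.32 * (t : ℝ) ^ 2 := by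
      have h5 : c * L ^ ((2 : ℝ) / 3) ≤ (1 / 50) * (4 * ((t : ℝ) + 1) ^ 2) :=
        mul_le_mul hc1 hL2 hL3 (by norm_num)
      nlinarith
    have h5 : 0.32 * (t : ℝ) ^ 2 - 0.35 ≤ ((t ^ 2 / 2 : ℕ) : ℝ) * Real.log 2 := by
      have h6 : (((t : ℝ) ^ 2 - 1) / 2) * 0.6931471803 ≤ ((t ^ 2 / 2 : ℕ) : ℝ) * Real.log 2 :=
        mul_le_mul h3 hlog2'.le (by norm_num) (by positivity)
      nlinarith
    have h6 : Real.exp (0.32 * (t : ℝ) ^ 2) * 0.65 ≤ (2 : ℝ) ^ (t ^ 2 / 2) := by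
      rw [h2]
      refine le_trans ?_ (Real.exp_le_exp.2 h5)
      rw [sub_eq_add_neg, Real.exp_add]
      refine mul_le_mul_of_nonneg_left ?_ (Real.exp_pos _).le
      have := Real.add_one_le_exp (-0.35 : ℝ)
      linarith
    have h7 : c * n * Real.exp (c * L ^ ((2 : ℝ) / 3)) ≤
        (1 / 50) * n * Real.exp (0.32 * (t : ℝ) ^ 2) :=
      mul_le_mul (mul_le_mul_of_nonneg_right hc1 hn0) (Real.exp_le_exp.2 h4)
        (Real.exp_pos _).le (by positivity)
    refine h7.trans ?_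
    have h8 : (n : ℝ) * (Real.exp (0.32 * (t : ℝ) ^ 2) * 0.65) ≤ 4 * m :=
      (mul_le_mul_of_nonneg_left h6 hn0).trans h1'
    have h9 : 0 ≤ (n : ℝ) * Real.exp (0.32 * (t : ℝ) ^ 2) := by positivity
    nlinarith
  · push Not at htT
    obtain ⟨m, hm, hm'⟩ := block_bound (n := n) (k := k) pre_base (by norm_num)
      (Nat.zero_le _) (by omega) (by omega)
    refine ⟨m, hm, ?_⟩
    have h1 : (n : ℝ) ≤ 8 * m := by
      have : n ≤ 8 * m := by omega
      exact_mod_cast this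
    have h2 : (t : ℝ) + 1 ≤ T := by exact_mod_cast htT
    have h3 : L ^ ((2 : ℝ) / 3) ≤ 4 * (T : ℝ) ^ 2 := by
      have ht' : (0 : ℝ) ≤ t := Nat.cast_nonneg _
      have h4 : ((t : ℝ) + 1) ^ 2 ≤ (T : ℝ) ^ 2 := pow_le_pow_left₀ (by linarith) h2 2
      linarith
    have h4 : c * L ^ ((2 : ℝ) / 3) ≤ 4 * (T : ℝ) ^ 2 := by
      have : c * L ^ ((2 : ℝ) / 3) ≤ 1 * L ^ ((2 : ℝ) / 3) :=
        mul_le_mul_of_nonneg_right (hc1.trans (by norm_num)) hL3
      linarith
    calc c * n * Real.exp (c * L ^ ((2 : ℝ) / 3))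
        ≤ (Real.exp (-(4 * (T : ℝ) ^ 2)) / 8) * n * Real.exp (4 * (T : ℝ) ^ 2) :=
          mul_le_mul (mul_le_mul_of_nonneg_right hc2 hn0) (Real.exp_le_exp.2 h4)
            (Real.exp_pos _).le (by positivity)
      _ = (n : ℝ) / 8 * (Real.exp (-(4 * (T : ℝ) ^ 2)) * Real.exp (4 * (T : ℝ) ^ 2)) := by ring
      _ = (n : ℝ) / 8 := by rw [← Real.exp_add]; simp
      _ ≤ m := by linarith

/-- Part B -/
theorem partB
    (base : ∃ t0 : ℕ, ∀ t ≥ t0, ∃ n m K : ℕ, Pre n m K ∧ 0 < m ∧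
      n ≤ 2 ^ (4 * t ^ 3) ∧ n * 2 ^ (t ^ 2 / 2) ≤ m)
    (A : ∀ n m K : ℕ, Pre n m K → m ≤ eMax K n ∧ m ≤ eMax (K + 1) n) :
    ∃ c : ℝ, 0 < c ∧ ∀ n k : ℕ, 2 ≤ n → k < n →
      c * n * Real.exp (c * (Real.log (min (k + 1) (n - k) : ℕ)) ^ ((2 : ℝ) / 3))
        ≤ (eMax k n : ℝ) := by
  obtain ⟨c, hc, h⟩ := exists_pre_bound base
  refine ⟨c, hc, fun n k hn hk => ?_⟩
  by_cases hk2 : 2 * k + 1 ≤ n
  · obtain ⟨m, hm, hm'⟩ := h n k hn hk2
    have h1 : min (k + 1) (n - k) = k + 1 := min_eq_left (by omega)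
    rw [h1]
    refine hm'.trans ?_
    exact_mod_cast (A n m k hm).1
  · push Not at hk2
    obtain ⟨m, hm, hm'⟩ := h n (n - 1 - k) hn (by omega)
    have h1 : min (k + 1) (n - k) = (n - 1 - k) + 1 := by
      rw [min_eq_right (by omega)]; omega
    rw [h1]
    refine hm'.trans ?_
    have h2 := hm.reflect
    have h3 : n - 2 - (n - 1 - k) = k - 1 := by omega
    rw [h3] at h2
    have h4 := (A n m (k - 1) h2).2
    have h5 : k - 1 + 1 = k := by omega
    rw [h5] at h4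
    exact_mod_cast h4

end Pool.Agent.KL
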