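import Pool.Agent.KL.Defs

namespace Pool.Agent.KL
open Finset

theorem partC_init (H : ℕ) (_hH : 1 ≤ H) :
    ∃ N : NCfg H 1 H, Fintype.card N.ι = 2 ∧ Fintype.card N.κ = 1 ∧
      Nat.card {e // N.good e} = 1 := by
  have hne2 : ∀ i : Fin 2, i ≠ 0 → i ≠ 1 → False := by
    intro i h0 h1
    fin_cases i
    · exact h0 rfl
    · exact h1 rfl
  refine ⟨{
    ι := Fin 2
    κ := Unit
    τ := fun i => if i = 0 then 0 else H
    c := fun _ => 0
    lo := fun _ => 0
    up := fun _ => 1
    X := fun _ => 0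
    Y := fun _ => 0
    K := 0
    Q := 0
    hτ := ?_
    hΔ := ?_
    hlo := ?_
    hup := ?_
    hne := ?_
    hK := ?_
    inj := ?_
    robust := ?_
    bal := ?_
    good := fun _ => True
    act := fun i => i = 0
    x0 := fun _ => 0
    h := 1
    h_pos := one_pos
    pos := fun _ => 0
    pos_lt := ?_
    act_lo := ?_
    act_up := ?_
    hX := ?_ }, ?_, ?_, ?_⟩
  · intro i
    by_cases h : i = 0 <;> simp [h]
  · intro e; simp
  · intro e; simp
  · intro e; simp
  · intro e i h0 h1; exact (hne2 i h0 h1).elim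
  · intro e; simp
  · intro a b _; rfl
  · intro e e' h; exact (h rfl).elim
  · intro e; simp
  · intro e _; exact one_pos
  · intro e _; rfl
  · intro e _; simp
  · intro e _; simp
  · simp
  · simp
  · simp

/-- `z_l = 2 l - a + 1` -/
def zz (a : ℕ) (l : Fin a) : ℝ := 2 * (l : ℕ) - a + 1

/-- offset of the abscissa (in units of `r`) -/
noncomputable def xi (a Δ : ℕ) (l : Fin a) (b : Bool) : ℝ :=
  (if b then 1 / 2 - zz a l else zz a l - 1 / 2) / Δ

theorem zz_lt {a : ℕ} {l l' : Fin a} : zz a l < zz a l' ↔ l < l' := by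
  unfold zz
  constructor
  · intro h
    have : ((l : ℕ) : ℝ) < (l' : ℕ) := by linarith
    exact_mod_cast this
  · intro h
    have : ((l : ℕ) : ℝ) < (l' : ℕ) := by exact_mod_cast h
    linarith

theorem zz_add_lt {a : ℕ} {l l' : Fin a} : zz a l' < 1 - zz a l ↔ (l' : ℕ) + l < a := by
  unfold zz
  constructor
  · intro h
    have h1 : (2 * (l' : ℕ) + 2 * (l : ℕ) : ℝ) < 2 * a - 1 := by linarith
    by_contra hc
    push Not at hc
    have h2 : ((a : ℕ) : ℝ) ≤ (l' : ℕ) + (l : ℕ) := by exact_mod_cast hc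
    linarith
  · intro h
    have h2 : (((l' : ℕ) + (l : ℕ) + 1 : ℕ) : ℝ) ≤ a := by exact_mod_cast h
    push_cast at h2
    linarith

theorem zz_add_ne {a : ℕ} (l l' : Fin a) : zz a l' ≠ 1 - zz a l := by
  unfold zz
  intro h
  have h1 : (2 * ((l' : ℕ) : ℤ) + 2 * ((l : ℕ) : ℤ) : ℤ) = 2 * (a : ℤ) - 1 := by
    have : (2 * ((l' : ℕ) : ℝ) + 2 * ((l : ℕ) : ℝ) : ℝ) = 2 * (a : ℝ) - 1 := by linarith
    exact_mod_cast this
  omega

theorem zz_inj {a : ℕ} {l l' : Fin a} (h : zz a l = zz a l') : l = l' := by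
  unfold zz at h
  have : ((l : ℕ) : ℝ) = (l' : ℕ) := by linarith
  exact Fin.ext (by exact_mod_cast this)

theorem card_lt {a : ℕ} (l : Fin a) : (univ.filter fun l' : Fin a => l' < l).card = l := by
  rw [Finset.filter_gt_eq_Iio, Fin.card_Iio]

theorem card_add_lt {a : ℕ} (l : Fin a) :
    (univ.filter fun l' : Fin a => (l' : ℕ) + l < a).card = a - l := by
  have : (univ.filter fun l' : Fin a => (l' : ℕ) + l < a).card = (Finset.range (a - l)).card := by
    refine Finset.card_bij (fun l' _ => (l' : ℕ)) ?_ ?_ ?_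
    · intro x hx
      simp only [mem_filter, mem_univ, true_and] at hx
      simp only [mem_range]; omega
    · intro x _ y _ h
      exact Fin.ext h
    · intro n hn
      simp only [mem_range] at hn
      refine ⟨⟨n, by omega⟩, ?_, rfl⟩
      simp only [mem_filter, mem_univ, true_and]; omega
  rw [this, Finset.card_range]

/-- sign condition -/
theorem ev_sign (α β : ℝ) : ∀ᶠ r in nhdsWithin (0 : ℝ) (Set.Ioi 0),
    (α < 0 → α + β * r < 0) ∧ (0 < α → 0 < α + β * r) := by
  have hc : Filter.Tendsto (fun r : ℝ => α + β * r) (nhdsWithin (0 : ℝ) (Set.Ioi 0))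
      (nhds α) := by
    have : Filter.Tendsto (fun r : ℝ => α + β * r) (nhds 0) (nhds (α + β * 0)) :=
      (continuous_const.add (continuous_const.mul continuous_id)).tendsto 0
    rw [mul_zero, add_zero] at this
    exact this.mono_left nhdsWithin_le_nhds
  rcases lt_trichotomy α 0 with h | h | h
  · filter_upwards [hc.eventually (gt_mem_nhds h)] with r hr
    exact ⟨fun _ => hr, fun h' => absurd h' (not_lt.mpr h.le)⟩
  · exact Filter.Eventually.of_forall fun r =>
      ⟨fun h' => absurd h' (by rw [h]; exact lt_irrefl _),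
       fun h' => absurd h' (by rw [h]; exact lt_irrefl _)⟩
  · filter_upwards [hc.eventually (lt_mem_nhds h)] with r hr
    exact ⟨fun h' => absurd h' (not_lt.mpr h.le), fun _ => hr⟩

section step

variable {Δ V H : ℕ} (N : NCfg (2 * Δ) V H) (a : ℕ) (r : ℝ)

/-- slope of the pivot line at `e` -/
def sl (e : N.κ) : ℝ := (N.τ (N.lo e) : ℝ) + Δ

/-- offset of the ordinate (in units of `r`) -/
noncomputable def eta (e : N.κ) (l : Fin a) (b : Bool) : ℝ := 1 / 2 + sl N e * xi a Δ l b

/-- abscissa of a new vertex -/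
noncomputable def nX (e : N.κ) (l : Fin a) (b : Bool) : ℝ := N.X e + r * xi a Δ l b

/-- ordinate of a new vertex -/
noncomputable def nY (e : N.κ) (l : Fin a) (b : Bool) : ℝ := N.Y e + r * eta N a e l b

/-- new slopes -/
def nτ : (N.ι × Fin a) ⊕ N.κ → ℕ
  | Sum.inl p => N.τ p.1
  | Sum.inr e => N.τ (N.lo e) + Δ

/-- new intercepts -/
noncomputable def nc : (N.ι × Fin a) ⊕ N.κ → ℝ
  | Sum.inl p => N.c p.1 + r * zz a p.2
  | Sum.inr e => N.Y e + r / 2 - sl N e * N.X e

/-- new lower lines -/
def nlo : N.κ × Fin a × Bool → (N.ι × Fin a) ⊕ N.κ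
  | (e, l, false) => Sum.inl (N.lo e, l)
  | (e, _, true) => Sum.inr e

/-- new upper lines -/
def nup : N.κ × Fin a × Bool → (N.ι × Fin a) ⊕ N.κ
  | (e, _, false) => Sum.inr e
  | (e, l, true) => Sum.inl (N.up e, l)

/-- `r` is small enough -/
structure Small : Prop where
  rpos : 0 < r
  E1 : ∀ (e : N.κ) (l : Fin a) (b : Bool) (i : N.ι) (l' : Fin a),
    (((N.τ i : ℝ) * N.X e + N.c i - N.Y e) < 0 →
      ((N.τ i : ℝ) * N.X e + N.c i - N.Y e)
        + ((N.τ i : ℝ) * xi a Δ l b + zz a l' - eta N a e l b) * r < 0) ∧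
    (0 < ((N.τ i : ℝ) * N.X e + N.c i - N.Y e) →
      0 < ((N.τ i : ℝ) * N.X e + N.c i - N.Y e)
        + ((N.τ i : ℝ) * xi a Δ l b + zz a l' - eta N a e l b) * r)
  E2 : ∀ (e e' : N.κ) (l : Fin a) (b : Bool),
    ((N.Y e' + sl N e' * (N.X e - N.X e') - N.Y e) < 0 →
      (N.Y e' + sl N e' * (N.X e - N.X e') - N.Y e)
        + (1 / 2 + sl N e' * xi a Δ l b - eta N a e l b) * r < 0) ∧
    (0 < (N.Y e' + sl N e' * (N.X e - N.X e') - N.Y e) →
      0 < (N.Y e' + sl N e' * (N.X e - N.X e') - N.Y e)
        + (1 / 2 + sl N e' * xi a Δ l b - eta N a e l b) * r)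
  E3 : ∀ (e e' : N.κ) (l : Fin a) (b : Bool) (l' : Fin a) (b' : Bool) (m : Bool),
    ((N.Y e + (if m then (N.τ (N.lo e) : ℝ) + 1 / 4 else N.τ (N.up e) - 1 / 4)
        * (N.X e' - N.X e) - N.Y e') < 0 →
      (N.Y e + (if m then (N.τ (N.lo e) : ℝ) + 1 / 4 else N.τ (N.up e) - 1 / 4)
        * (N.X e' - N.X e) - N.Y e')
        + (eta N a e l b + (if m then (N.τ (N.lo e) : ℝ) + 1 / 4 else N.τ (N.up e) - 1 / 4)
          * (xi a Δ l' b' - xi a Δ l b) - eta N a e' l' b') * r < 0) ∧
    (0 < (N.Y e + (if m then (N.τ (N.lo e) : ℝ) + 1 / 4 else N.τ (N.up e) - 1 / 4)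
        * (N.X e' - N.X e) - N.Y e') →
      0 < (N.Y e + (if m then (N.τ (N.lo e) : ℝ) + 1 / 4 else N.τ (N.up e) - 1 / 4)
        * (N.X e' - N.X e) - N.Y e')
        + (eta N a e l b + (if m then (N.τ (N.lo e) : ℝ) + 1 / 4 else N.τ (N.up e) - 1 / 4)
          * (xi a Δ l' b' - xi a Δ l b) - eta N a e' l' b') * r)

theorem exists_small : ∃ r, Small N a r := by
  have h1 : ∀ᶠ r in nhdsWithin (0 : ℝ) (Set.Ioi 0), Small N a r := by
    have e1 : ∀ᶠ r in nhdsWithin (0 : ℝ) (Set.Ioi 0), ∀ (e : N.κ) (l : Fin a) (b : Bool)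
        (i : N.ι) (l' : Fin a),
        (((N.τ i : ℝ) * N.X e + N.c i - N.Y e) < 0 →
          ((N.τ i : ℝ) * N.X e + N.c i - N.Y e)
            + ((N.τ i : ℝ) * xi a Δ l b + zz a l' - eta N a e l b) * r < 0) ∧
        (0 < ((N.τ i : ℝ) * N.X e + N.c i - N.Y e) →
          0 < ((N.τ i : ℝ) * N.X e + N.c i - N.Y e)
            + ((N.τ i : ℝ) * xi a Δ l b + zz a l' - eta N a e l b) * r) := by
      simp only [Filter.eventually_all]
      intro e l b i l'
      exact ev_sign _ _
    have e2 : ∀ᶠ r in nhdsWithin (0 : ℝ) (Set.Ioi 0), ∀ (e e' : N.κ) (l : Fin a) (b : Bool),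
        ((N.Y e' + sl N e' * (N.X e - N.X e') - N.Y e) < 0 →
          (N.Y e' + sl N e' * (N.X e - N.X e') - N.Y e)
            + (1 / 2 + sl N e' * xi a Δ l b - eta N a e l b) * r < 0) ∧
        (0 < (N.Y e' + sl N e' * (N.X e - N.X e') - N.Y e) →
          0 < (N.Y e' + sl N e' * (N.X e - N.X e') - N.Y e)
            + (1 / 2 + sl N e' * xi a Δ l b - eta N a e l b) * r) := by
      simp only [Filter.eventually_all]
      intro e e' l b
      exact ev_sign _ _
    have e3 : ∀ᶠ r in nhdsWithin (0 : ℝ) (Set.Ioi 0),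
        ∀ (e e' : N.κ) (l : Fin a) (b : Bool) (l' : Fin a) (b' : Bool) (m : Bool),
        ((N.Y e + (if m then (N.τ (N.lo e) : ℝ) + 1 / 4 else N.τ (N.up e) - 1 / 4)
            * (N.X e' - N.X e) - N.Y e') < 0 →
          (N.Y e + (if m then (N.τ (N.lo e) : ℝ) + 1 / 4 else N.τ (N.up e) - 1 / 4)
            * (N.X e' - N.X e) - N.Y e')
            + (eta N a e l b + (if m then (N.τ (N.lo e) : ℝ) + 1 / 4 else N.τ (N.up e) - 1 / 4)
              * (xi a Δ l' b' - xi a Δ l b) - eta N a e' l' b') * r < 0) ∧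
        (0 < (N.Y e + (if m then (N.τ (N.lo e) : ℝ) + 1 / 4 else N.τ (N.up e) - 1 / 4)
            * (N.X e' - N.X e) - N.Y e') →
          0 < (N.Y e + (if m then (N.τ (N.lo e) : ℝ) + 1 / 4 else N.τ (N.up e) - 1 / 4)
            * (N.X e' - N.X e) - N.Y e')
            + (eta N a e l b + (if m then (N.τ (N.lo e) : ℝ) + 1 / 4 else N.τ (N.up e) - 1 / 4)
              * (xi a Δ l' b' - xi a Δ l b) - eta N a e' l' b') * r) := by
      simp only [Filter.eventually_all]
      intro e e' l b l' b' m
      exact ev_sign _ _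
    filter_upwards [e1, e2, e3, self_mem_nhdsWithin] with r h1 h2 h3 h4
    exact ⟨h4, h1, h2, h3⟩
  exact h1.exists


variable {N a r}

theorem up_eq (e : N.κ) : (N.τ (N.up e) : ℝ) = N.τ (N.lo e) + 2 * Δ := by
  have := N.hΔ e
  rw [this]; push_cast; ring

theorem lo_ne_up (hΔ : 1 ≤ Δ) (e : N.κ) : N.lo e ≠ N.up e := by
  intro h
  have := N.hΔ e
  rw [← h] at this
  omega

theorem mul_xi (hΔ : 1 ≤ Δ) (l : Fin a) (b : Bool) :
    (Δ : ℝ) * xi a Δ l b = if b then 1 / 2 - zz a l else zz a l - 1 / 2 := by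
  have : (Δ : ℝ) ≠ 0 := by
    have : (0 : ℝ) < Δ := by exact_mod_cast hΔ
    exact this.ne'
  unfold xi
  field_simp

theorem xi_lt (hΔ : 1 ≤ Δ) {l l' : Fin a} {b b' : Bool} :
    xi a Δ l b < xi a Δ l' b' ↔
      (if b then 1 / 2 - zz a l else zz a l - 1 / 2)
        < (if b' then 1 / 2 - zz a l' else zz a l' - 1 / 2) := by
  have h0 : (0 : ℝ) < Δ := by exact_mod_cast hΔ
  rw [← mul_xi hΔ, ← mul_xi hΔ]
  exact (mul_lt_mul_iff_right₀ h0).symm

theorem xi_inj (hΔ : 1 ≤ Δ) {l l' : Fin a} {b b' : Bool}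
    (h : xi a Δ l b = xi a Δ l' b') : l = l' ∧ b = b' := by
  have h1 := mul_xi hΔ l b
  have h2 := mul_xi hΔ l' b'
  rw [h, h2] at h1
  cases b <;> cases b'
  · simp only [Bool.false_eq_true, if_false] at h1
    exact ⟨zz_inj (by linarith), rfl⟩
  · simp only [Bool.false_eq_true, if_false, if_true] at h1
    exact (zz_add_ne l l' (by linarith)).elim
  · simp only [Bool.false_eq_true, if_false, if_true] at h1
    exact (zz_add_ne l l' (by linarith)).elim
  · simp only [if_true] at h1
    exact ⟨zz_inj (by linarith), rfl⟩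

theorem rob (S : Small N a r) {e e' : N.κ} (h : e ≠ e') :
    (∀ s : ℝ, (N.τ (N.lo e) : ℝ) + 1 / 4 ≤ s → s ≤ N.τ (N.up e) - 1 / 4 →
      N.Y e + s * (N.X e' - N.X e) < N.Y e' ∧
        ∀ l b l' b', nY N a r e l b + s * (nX N a r e' l' b' - nX N a r e l b)
          < nY N a r e' l' b') ∨
    (∀ s : ℝ, (N.τ (N.lo e) : ℝ) + 1 / 4 ≤ s → s ≤ N.τ (N.up e) - 1 / 4 →
      N.Y e' < N.Y e + s * (N.X e' - N.X e) ∧
        ∀ l b l' b', nY N a r e' l' b'
          < nY N a r e l b + s * (nX N a r e' l' b' - nX N a r e l b)) := by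
  rcases N.robust e e' h with hr | hr
  · left
    intro s h1 h2
    refine ⟨hr s h1 h2, fun l b l' b' => ?_⟩
    have a1 := hr _ le_rfl (h1.trans h2)
    have a2 := hr _ (h1.trans h2) le_rfl
    have b1 := (S.E3 e e' l b l' b' true).1
    have b2 := (S.E3 e e' l b l' b' false).1
    simp only [if_true] at b1
    simp only [Bool.false_eq_true, if_false] at b2
    have c1 := b1 (by linarith)
    have c2 := b2 (by linarith)
    unfold nY nX
    rcases le_total 0 (N.X e' + r * xi a Δ l' b' - (N.X e + r * xi a Δ l b)) with hd | hd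
    · have := mul_le_mul_of_nonneg_right h2 hd
      nlinarith
    · have := mul_le_mul_of_nonpos_right h1 hd
      nlinarith
  · right
    intro s h1 h2
    refine ⟨hr s h1 h2, fun l b l' b' => ?_⟩
    have a1 := hr _ le_rfl (h1.trans h2)
    have a2 := hr _ (h1.trans h2) le_rfl
    have b1 := (S.E3 e e' l b l' b' true).2
    have b2 := (S.E3 e e' l b l' b' false).2
    simp only [if_true] at b1
    simp only [Bool.false_eq_true, if_false] at b2
    have c1 := b1 (by linarith)
    have c2 := b2 (by linarith)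
    unfold nY nX
    rcases le_total 0 (N.X e' + r * xi a Δ l' b' - (N.X e + r * xi a Δ l b)) with hd | hd
    · have := mul_le_mul_of_nonneg_right h1 hd
      nlinarith
    · have := mul_le_mul_of_nonpos_right h2 hd
      nlinarith

theorem sl_mem (hΔ : 1 ≤ Δ) (e : N.κ) : (N.τ (N.lo e) : ℝ) + 1 / 4 ≤ sl N e ∧
    sl N e ≤ N.τ (N.up e) - 1 / 4 := by
  have h0 : (1 : ℝ) ≤ Δ := by exact_mod_cast hΔ
  have := up_eq e
  unfold sl
  constructor <;> linarith

/-- the old pivot line of `e'` is strictly below `e` -/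
def Bl (N : NCfg (2 * Δ) V H) (e e' : N.κ) : Prop :=
  N.Y e' + sl N e' * (N.X e - N.X e') < N.Y e

theorem not_Bl (e : N.κ) : ¬ Bl N e e := by
  unfold Bl; simp

open Classical in
theorem card_Bl (e : N.κ) : (univ.filter fun e' => Bl N e e').card = N.Q := by
  rw [← N.bal e]
  congr 1
  apply Finset.filter_congr
  intro e' _
  unfold Bl sl
  have : (((2 * Δ : ℕ) : ℝ) / 2) = Δ := by push_cast; ring
  rw [this]

theorem pivot (hΔ : 1 ≤ Δ) (S : Small N a r) {e e' : N.κ} (h : e' ≠ e) (l : Fin a) (b : Bool) :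
    (Bl N e e' ∧ sl N e' * nX N a r e l b + (N.Y e' + r / 2 - sl N e' * N.X e')
        < nY N a r e l b) ∨
    (¬ Bl N e e' ∧ nY N a r e l b
        < sl N e' * nX N a r e l b + (N.Y e' + r / 2 - sl N e' * N.X e')) := by
  obtain ⟨m1, m2⟩ := sl_mem hΔ e'
  rcases N.robust e' e h with hr | hr
  · left
    have h1 := hr _ m1 m2
    have h2 := (S.E2 e e' l b).1 (by linarith)
    refine ⟨h1, ?_⟩
    unfold nY nX
    nlinarith
  · right
    have h1 := hr _ m1 m2
    have h2 := (S.E2 e e' l b).2 (by linarith)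
    refine ⟨by unfold Bl; exact not_lt.mpr h1.le, ?_⟩
    unfold nY nX
    nlinarith


theorem cond_other (S : Small N a r) {e : N.κ} {i : N.ι} (h0 : i ≠ N.lo e) (h1 : i ≠ N.up e)
    (l : Fin a) (b : Bool) (l' : Fin a) :
    ((N.τ i : ℝ) * N.X e + N.c i < N.Y e ∧
      (N.τ i : ℝ) * nX N a r e l b + (N.c i + r * zz a l') < nY N a r e l b) ∨
    (¬ (N.τ i : ℝ) * N.X e + N.c i < N.Y e ∧
      nY N a r e l b < (N.τ i : ℝ) * nX N a r e l b + (N.c i + r * zz a l')) := by
  have hne := N.hne e i h0 h1
  rcases lt_or_gt_of_ne hne with h | h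
  · left
    refine ⟨h, ?_⟩
    have := (S.E1 e l b i l').1 (by linarith)
    unfold nX nY
    nlinarith
  · right
    refine ⟨not_lt.mpr h.le, ?_⟩
    have := (S.E1 e l b i l').2 (by linarith)
    unfold nX nY
    nlinarith

theorem diff_lo (e : N.κ) (l : Fin a) (b : Bool) (l' : Fin a) :
    nY N a r e l b - ((N.τ (N.lo e) : ℝ) * nX N a r e l b + (N.c (N.lo e) + r * zz a l'))
      = r * (1 / 2 + Δ * xi a Δ l b - zz a l') := by
  have := N.hlo e
  unfold nX nY eta sl
  linear_combination (-1 : ℝ) * this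

theorem diff_up (e : N.κ) (l : Fin a) (b : Bool) (l' : Fin a) :
    nY N a r e l b - ((N.τ (N.up e) : ℝ) * nX N a r e l b + (N.c (N.up e) + r * zz a l'))
      = r * (1 / 2 - Δ * xi a Δ l b - zz a l') := by
  have := N.hup e
  have h2 := up_eq e
  unfold nX nY eta sl
  rw [h2] at this ⊢
  linear_combination (-1 : ℝ) * this

theorem diff_piv (e : N.κ) (l : Fin a) (b : Bool) :
    sl N e * nX N a r e l b + (N.Y e + r / 2 - sl N e * N.X e) = nY N a r e l b := by
  unfold nX nY eta
  ring

theorem cond_lo (hΔ : 1 ≤ Δ) (S : Small N a r) (e : N.κ) (l : Fin a) (b : Bool) (l' : Fin a) :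
    (N.τ (N.lo e) : ℝ) * nX N a r e l b + (N.c (N.lo e) + r * zz a l') < nY N a r e l b ↔
      (if b then (l' : ℕ) + l < a else l' < l) := by
  have hd := diff_lo (r := r) e l b l'
  rw [mul_xi hΔ] at hd
  have h1 : (N.τ (N.lo e) : ℝ) * nX N a r e l b + (N.c (N.lo e) + r * zz a l') < nY N a r e l b ↔
      0 < r * (1 / 2 + (if b then 1 / 2 - zz a l else zz a l - 1 / 2) - zz a l') := by
    rw [← hd, sub_pos]
  rw [h1, mul_pos_iff_of_pos_left S.rpos]
  cases b
  · simp only [Bool.false_eq_true, if_false]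
    rw [← zz_lt]
    constructor <;> intro h <;> linarith
  · simp only [if_true]
    rw [← zz_add_lt]
    constructor <;> intro h <;> linarith

theorem cond_up (hΔ : 1 ≤ Δ) (S : Small N a r) (e : N.κ) (l : Fin a) (b : Bool) (l' : Fin a) :
    (N.τ (N.up e) : ℝ) * nX N a r e l b + (N.c (N.up e) + r * zz a l') < nY N a r e l b ↔
      (if b then l' < l else (l' : ℕ) + l < a) := by
  have hd := diff_up (r := r) e l b l'
  rw [mul_xi hΔ] at hd
  have h1 : (N.τ (N.up e) : ℝ) * nX N a r e l b + (N.c (N.up e) + r * zz a l') < nY N a r e l b ↔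
      0 < r * (1 / 2 - (if b then 1 / 2 - zz a l else zz a l - 1 / 2) - zz a l') := by
    rw [← hd, sub_pos]
  rw [h1, mul_pos_iff_of_pos_left S.rpos]
  cases b
  · simp only [Bool.false_eq_true, if_false]
    rw [← zz_add_lt]
    constructor <;> intro h <;> linarith
  · simp only [if_true]
    rw [← zz_lt]
    constructor <;> intro h <;> linarith

theorem ne_lo (hΔ : 1 ≤ Δ) (S : Small N a r) (e : N.κ) (l : Fin a) (b : Bool) (l' : Fin a)
    (h : (N.τ (N.lo e) : ℝ) * nX N a r e l b + (N.c (N.lo e) + r * zz a l') = nY N a r e l b) :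
    b = false ∧ l' = l := by
  have hd := diff_lo (r := r) e l b l'
  rw [mul_xi hΔ, h, sub_self] at hd
  have hr : r ≠ 0 := S.rpos.ne'
  have h2 := (mul_eq_zero.mp hd.symm).resolve_left hr
  cases b
  · simp only [Bool.false_eq_true, if_false] at h2
    exact ⟨rfl, zz_inj (by linarith)⟩
  · simp only [if_true] at h2
    exact (zz_add_ne l l' (by linarith)).elim

theorem ne_up (hΔ : 1 ≤ Δ) (S : Small N a r) (e : N.κ) (l : Fin a) (b : Bool) (l' : Fin a)
    (h : (N.τ (N.up e) : ℝ) * nX N a r e l b + (N.c (N.up e) + r * zz a l') = nY N a r e l b) :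
    b = true ∧ l' = l := by
  have hd := diff_up (r := r) e l b l'
  rw [mul_xi hΔ, h, sub_self] at hd
  have hr : r ≠ 0 := S.rpos.ne'
  have h2 := (mul_eq_zero.mp hd.symm).resolve_left hr
  cases b
  · simp only [Bool.false_eq_true, if_false] at h2
    exact (zz_add_ne l l' (by linarith)).elim
  · simp only [if_true] at h2
    exact ⟨rfl, zz_inj (by linarith)⟩

theorem eq_lo (hΔ : 1 ≤ Δ) (e : N.κ) (l : Fin a) :
    (N.τ (N.lo e) : ℝ) * nX N a r e l false + (N.c (N.lo e) + r * zz a l) = nY N a r e l false := by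
  have hd := diff_lo (r := r) e l false l
  rw [mul_xi hΔ] at hd
  simp only [Bool.false_eq_true, if_false] at hd
  have : r * (1 / 2 + (zz a l - 1 / 2) - zz a l) = 0 := by ring
  linarith

theorem eq_up (hΔ : 1 ≤ Δ) (e : N.κ) (l : Fin a) :
    (N.τ (N.up e) : ℝ) * nX N a r e l true + (N.c (N.up e) + r * zz a l) = nY N a r e l true := by
  have hd := diff_up (r := r) e l true l
  rw [mul_xi hΔ] at hd
  simp only [if_true] at hd
  have : r * (1 / 2 - (1 / 2 - zz a l) - zz a l) = 0 := by ring
  linarith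

theorem sum_ite_card {α : Type} [Fintype α] (P Q : α → Prop) [DecidablePred P] [DecidablePred Q]
    (h : ∀ x, P x ↔ Q x) : (∑ x, if P x then 1 else 0) = (univ.filter Q).card := by
  rw [Finset.card_filter]
  exact Finset.sum_congr rfl fun x _ => if_congr (h x) rfl rfl

open Classical in
/-- the number of copies strictly below a new vertex -/
theorem count_lines (hΔ : 1 ≤ Δ) (S : Small N a r) (e : N.κ) (l : Fin a) (b : Bool) :
    (univ.filter fun j => (nτ N a j : ℝ) * nX N a r e l b + nc N a r j < nY N a r e l b).card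
      = a * N.K + a + N.Q := by
  rw [Finset.card_filter, Fintype.sum_sum_type]
  have hR : (∑ e' : N.κ, if (nτ N a (Sum.inr e') : ℝ) * nX N a r e l b + nc N a r (Sum.inr e')
      < nY N a r e l b then 1 else 0) = N.Q := by
    rw [← card_Bl e, Finset.card_filter]
    apply Finset.sum_congr rfl
    intro e' _
    have hval : (nτ N a (Sum.inr e') : ℝ) * nX N a r e l b + nc N a r (Sum.inr e')
        = sl N e' * nX N a r e l b + (N.Y e' + r / 2 - sl N e' * N.X e') := by
      simp only [nτ, nc, sl]; push_cast; ring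
    rw [hval]
    by_cases h : e' = e
    · subst h
      rw [diff_piv, if_neg (lt_irrefl _), if_neg (not_Bl _)]
    · rcases pivot hΔ S h l b with ⟨h1, h2⟩ | ⟨h1, h2⟩
      · rw [if_pos h1, if_pos h2]
      · rw [if_neg h1, if_neg (not_lt.mpr h2.le)]
  have hL : (∑ p : N.ι × Fin a, if (nτ N a (Sum.inl p) : ℝ) * nX N a r e l b
      + nc N a r (Sum.inl p) < nY N a r e l b then 1 else 0) = a * N.K + a := by
    rw [Fintype.sum_prod_type]
    have hi : ∀ i : N.ι, (∑ l' : Fin a, if (nτ N a (Sum.inl (i, l')) : ℝ) * nX N a r e l b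
        + nc N a r (Sum.inl (i, l')) < nY N a r e l b then 1 else 0)
        = a * (if (N.τ i : ℝ) * N.X e + N.c i < N.Y e then 1 else 0)
          + (if i = N.lo e then (if b then a - l else l) else 0)
          + (if i = N.up e then (if b then (l : ℕ) else a - l) else 0) := by
      intro i
      have hval : ∀ l' : Fin a, (nτ N a (Sum.inl (i, l')) : ℝ) * nX N a r e l b
          + nc N a r (Sum.inl (i, l')) = (N.τ i : ℝ) * nX N a r e l b + (N.c i + r * zz a l') :=
        fun _ => rfl
      by_cases h0 : i = N.lo e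
      · have h1 : i ≠ N.up e := by rw [h0]; exact lo_ne_up hΔ e
        rw [if_pos h0, if_neg h1]
        subst h0
        rw [if_neg (by rw [N.hlo e]; exact lt_irrefl _)]
        cases b
        · rw [sum_ite_card _ (fun l' : Fin a => l' < l) (fun l' => by
            rw [hval]; simpa using cond_lo hΔ S e l false l')]
          rw [card_lt]; simp
        · rw [sum_ite_card _ (fun l' : Fin a => (l' : ℕ) + l < a) (fun l' => by
            rw [hval]; simpa using cond_lo hΔ S e l true l')]
          rw [card_add_lt]; simp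
      · by_cases h1 : i = N.up e
        · rw [if_neg h0, if_pos h1]
          subst h1
          rw [if_neg (by rw [N.hup e]; exact lt_irrefl _)]
          cases b
          · rw [sum_ite_card _ (fun l' : Fin a => (l' : ℕ) + l < a) (fun l' => by
              rw [hval]; simpa using cond_up hΔ S e l false l')]
            rw [card_add_lt]; simp
          · rw [sum_ite_card _ (fun l' : Fin a => l' < l) (fun l' => by
              rw [hval]; simpa using cond_up hΔ S e l true l')]
            rw [card_lt]; simp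
        · rw [if_neg h0, if_neg h1]
          by_cases hb : (N.τ i : ℝ) * N.X e + N.c i < N.Y e
          · rw [if_pos hb]
            rw [sum_ite_card _ (fun _ : Fin a => True) (fun l' => by
              rw [hval]
              rcases cond_other S h0 h1 l b l' with h | h
              · simpa using h.2
              · exact absurd hb h.1)]
            simp
          · rw [if_neg hb]
            rw [sum_ite_card _ (fun _ : Fin a => False) (fun l' => by
              rw [hval]
              rcases cond_other S h0 h1 l b l' with h | h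
              · exact absurd h.1 hb
              · simpa using h.2.le)]
            simp
    rw [Finset.sum_congr rfl fun i _ => hi i, Finset.sum_add_distrib, Finset.sum_add_distrib,
      ← Finset.mul_sum, ← Finset.card_filter, N.hK e]
    simp only [Finset.sum_ite_eq', Finset.mem_univ, if_true]
    have hl : (l : ℕ) < a := l.2
    cases b
    · simp only [Bool.false_eq_true, if_false]; omega
    · simp only [if_true]; omega
  rw [hL, hR]


/-- slope of the new lower line at a new vertex -/
theorem nτ_nlo (e : N.κ) (l : Fin a) (b : Bool) :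
    (nτ N a (nlo N a (e, l, b)) : ℝ) = (N.τ (N.lo e) : ℝ) + (if b then (Δ : ℝ) else 0) := by
  cases b
  · simp [nlo, nτ]
  · simp [nlo, nτ]

theorem line_same (e : N.κ) (l l' : Fin a) (b b' : Bool) :
    nY N a r e l b = nY N a r e l' b' + sl N e * (nX N a r e l b - nX N a r e l' b') := by
  unfold nX nY eta
  ring

theorem same_lt (S : Small N a r) (e : N.κ) (l l' : Fin a) (b b' : Bool) (s : ℝ) :
    nY N a r e l' b' + s * (nX N a r e l b - nX N a r e l' b') < nY N a r e l b ↔
      (s - sl N e) * (xi a Δ l b - xi a Δ l' b') < 0 := by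
  have h1 := line_same (r := r) e l l' b b'
  have h2 : nY N a r e l' b' + s * (nX N a r e l b - nX N a r e l' b') - nY N a r e l b
      = r * ((s - sl N e) * (xi a Δ l b - xi a Δ l' b')) := by
    rw [h1]; unfold nX; ring
  rw [← sub_neg, h2]
  constructor
  · intro h
    by_contra hc
    push Not at hc
    have := mul_nonneg S.rpos.le hc
    linarith
  · intro h
    exact mul_neg_of_pos_of_neg S.rpos h

theorem same_gt (S : Small N a r) (e : N.κ) (l l' : Fin a) (b b' : Bool) (s : ℝ) :
    nY N a r e l b < nY N a r e l' b' + s * (nX N a r e l b - nX N a r e l' b') ↔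
      0 < (s - sl N e) * (xi a Δ l b - xi a Δ l' b') := by
  have h1 := line_same (r := r) e l l' b b'
  have h2 : nY N a r e l' b' + s * (nX N a r e l b - nX N a r e l' b') - nY N a r e l b
      = r * ((s - sl N e) * (xi a Δ l b - xi a Δ l' b')) := by
    rw [h1]; unfold nX; ring
  rw [← sub_pos, h2]
  exact mul_pos_iff_of_pos_left S.rpos

open Classical in
theorem count_bal (hΔ : 1 ≤ Δ) (S : Small N a r) (e : N.κ) (l : Fin a) (b : Bool) :
    (univ.filter fun p : N.κ × Fin a × Bool =>
      nY N a r p.1 p.2.1 p.2.2 + ((nτ N a (nlo N a p) : ℝ) + Δ / 2)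
        * (nX N a r e l b - nX N a r p.1 p.2.1 p.2.2) < nY N a r e l b).card
      = 2 * a * N.Q + a := by
  have hΔ' : (1 : ℝ) ≤ Δ := by exact_mod_cast hΔ
  rw [Finset.card_filter, Fintype.sum_prod_type]
  have hi : ∀ e' : N.κ, (∑ q : Fin a × Bool,
      if nY N a r (e', q).1 (e', q).2.1 (e', q).2.2 + ((nτ N a (nlo N a (e', q)) : ℝ) + Δ / 2)
        * (nX N a r e l b - nX N a r (e', q).1 (e', q).2.1 (e', q).2.2) < nY N a r e l b
      then 1 else 0) = 2 * a * (if Bl N e e' then 1 else 0) + (if e' = e then a else 0) := by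
    intro e'
    rw [Fintype.sum_prod_type]
    simp only [Fintype.sum_bool]
    rw [Finset.sum_add_distrib]
    by_cases h : e' = e
    · subst h
      rw [if_neg (not_Bl _), if_pos rfl]
      have ht : ∀ l' : Fin a, (nY N a r e' l' true + ((nτ N a (nlo N a (e', l', true)) : ℝ) + Δ / 2)
          * (nX N a r e' l b - nX N a r e' l' true) < nY N a r e' l b) ↔
          (if b then l' < l else (l' : ℕ) + l < a) := by
        intro l'
        rw [same_lt S, nτ_nlo]
        simp only [if_true]
        have h1 : (N.τ (N.lo e') : ℝ) + Δ + Δ / 2 - sl N e' = Δ / 2 := by unfold sl; ring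
        rw [h1]
        have h2 : (Δ : ℝ) / 2 * (xi a Δ l b - xi a Δ l' true) < 0 ↔ xi a Δ l b < xi a Δ l' true := by
          constructor
          · intro h; nlinarith
          · intro h; nlinarith
        rw [h2, xi_lt hΔ]
        cases b
        · simp only [Bool.false_eq_true, if_false, if_true]
          rw [← zz_add_lt]
          constructor <;> intro h <;> linarith
        · simp only [if_true]
          rw [← zz_lt]
          constructor <;> intro h <;> linarith
      have hf : ∀ l' : Fin a, (nY N a r e' l' false + ((nτ N a (nlo N a (e', l', false)) : ℝ) + Δ / 2)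
          * (nX N a r e' l b - nX N a r e' l' false) < nY N a r e' l b) ↔
          (if b then (l' : ℕ) + l < a else l' < l) := by
        intro l'
        rw [same_lt S, nτ_nlo]
        simp only [Bool.false_eq_true, if_false, add_zero]
        have h1 : (N.τ (N.lo e') : ℝ) + Δ / 2 - sl N e' = - (Δ / 2) := by unfold sl; ring
        rw [h1]
        have h2 : -((Δ : ℝ) / 2) * (xi a Δ l b - xi a Δ l' false) < 0 ↔
            xi a Δ l' false < xi a Δ l b := by
          constructor
          · intro h; nlinarith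
          · intro h; nlinarith
        rw [h2, xi_lt hΔ]
        cases b
        · simp only [Bool.false_eq_true, if_false]
          rw [← zz_lt]
          constructor <;> intro h <;> linarith
        · simp only [Bool.false_eq_true, if_false, if_true]
          rw [← zz_add_lt]
          constructor <;> intro h <;> linarith
      rw [sum_ite_card _ _ ht, sum_ite_card _ _ hf]
      have hl : (l : ℕ) < a := l.2
      cases b
      · simp only [Bool.false_eq_true, if_false]
        rw [card_lt, card_add_lt]; omega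
      · simp only [if_true]
        rw [card_lt, card_add_lt]; omega
    · rw [if_neg h]
      have hs : ∀ b' : Bool, ∀ l' : Fin a,
          (N.τ (N.lo e') : ℝ) + 1 / 4 ≤ (nτ N a (nlo N a (e', l', b')) : ℝ) + Δ / 2 ∧
          (nτ N a (nlo N a (e', l', b')) : ℝ) + Δ / 2 ≤ N.τ (N.up e') - 1 / 4 := by
        intro b' l'
        rw [nτ_nlo, up_eq]
        cases b'
        · simp only [Bool.false_eq_true, if_false]
          constructor <;> linarith
        · simp only [if_true]
          constructor <;> linarith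
      rcases rob S h with hr | hr
      · have hB : Bl N e e' := (hr _ (sl_mem hΔ e').1 (sl_mem hΔ e').2).1
        have ht : ∀ b' : Bool, ∀ l' : Fin a,
            (nY N a r e' l' b' + ((nτ N a (nlo N a (e', l', b')) : ℝ) + Δ / 2)
            * (nX N a r e l b - nX N a r e' l' b') < nY N a r e l b) ↔ True := fun b' l' =>
          ⟨fun _ => trivial, fun _ => (hr _ (hs b' l').1 (hs b' l').2).2 l' b' l b⟩
        rw [if_pos hB, sum_ite_card _ _ (ht true), sum_ite_card _ _ (ht false)]
        simp
        ring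
      · have hB : ¬ Bl N e e' :=
          not_lt.mpr (hr _ (sl_mem hΔ e').1 (sl_mem hΔ e').2).1.le
        have ht : ∀ b' : Bool, ∀ l' : Fin a,
            (nY N a r e' l' b' + ((nτ N a (nlo N a (e', l', b')) : ℝ) + Δ / 2)
            * (nX N a r e l b - nX N a r e' l' b') < nY N a r e l b) ↔ False := fun b' l' =>
          ⟨fun hc => absurd ((hr _ (hs b' l').1 (hs b' l').2).2 l' b' l b) (not_lt.mpr hc.le),
            fun hc => hc.elim⟩
        rw [if_neg hB, sum_ite_card _ _ (ht true), sum_ite_card _ _ (ht false)]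
        simp
  rw [Finset.sum_congr rfl fun e' _ => hi e', Finset.sum_add_distrib, ← Finset.mul_sum,
    ← Finset.card_filter, card_Bl]
  simp

/-- robustness of the new configuration -/
theorem new_rob (hΔ : 1 ≤ Δ) (S : Small N a r) (e e' : N.κ) (l l' : Fin a) (b b' : Bool)
    (h : (e, l, b) ≠ (e', l', b')) :
    (∀ s : ℝ, (nτ N a (nlo N a (e, l, b)) : ℝ) + 1 / 4 ≤ s →
        s ≤ (nτ N a (nlo N a (e, l, b)) : ℝ) + Δ - 1 / 4 →
        nY N a r e l b + s * (nX N a r e' l' b' - nX N a r e l b) < nY N a r e' l' b') ∨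
    (∀ s : ℝ, (nτ N a (nlo N a (e, l, b)) : ℝ) + 1 / 4 ≤ s →
        s ≤ (nτ N a (nlo N a (e, l, b)) : ℝ) + Δ - 1 / 4 →
        nY N a r e' l' b' < nY N a r e l b + s * (nX N a r e' l' b' - nX N a r e l b)) := by
  have hΔ' : (1 : ℝ) ≤ Δ := by exact_mod_cast hΔ
  have hu := up_eq e
  rw [nτ_nlo]
  by_cases he : e = e'
  · subst he
    have hx : xi a Δ l b ≠ xi a Δ l' b' := by
      intro hx
      obtain ⟨h1, h2⟩ := xi_inj hΔ hx
      exact h (by rw [h1, h2])
    have hsl : sl N e = (N.τ (N.lo e) : ℝ) + Δ := rfl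
    rcases lt_or_gt_of_ne hx with hx | hx
    · cases b
      · left
        intro s h1 h2
        simp only [Bool.false_eq_true, if_false] at h1 h2
        rw [same_lt S]
        exact mul_neg_of_neg_of_pos (by linarith) (by linarith)
      · right
        intro s h1 h2
        simp only [if_true] at h1 h2
        rw [same_gt S]
        exact mul_pos (by linarith) (by linarith)
    · cases b
      · right
        intro s h1 h2
        simp only [Bool.false_eq_true, if_false] at h1 h2
        rw [same_gt S]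
        exact mul_pos_of_neg_of_neg (by linarith) (by linarith)
      · left
        intro s h1 h2
        simp only [if_true] at h1 h2
        rw [same_lt S]
        exact mul_neg_of_pos_of_neg (by linarith) (by linarith)
  · rcases rob S he with hr | hr
    · left
      intro s h1 h2
      refine (hr s ?_ ?_).2 l b l' b'
      · cases b
        · simp only [Bool.false_eq_true, if_false] at h1; linarith
        · simp only [if_true] at h1; linarith
      · cases b
        · simp only [Bool.false_eq_true, if_false] at h2; linarith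
        · simp only [if_true] at h2; linarith
    · right
      intro s h1 h2
      refine (hr s ?_ ?_).2 l b l' b'
      · cases b
        · simp only [Bool.false_eq_true, if_false] at h1; linarith
        · simp only [if_true] at h1; linarith
      · cases b
        · simp only [Bool.false_eq_true, if_false] at h2; linarith
        · simp only [if_true] at h2; linarith


/-- the new configuration -/
noncomputable def newCfg (hΔ : 1 ≤ Δ) (ha : 1 ≤ a) (S : Small N a r) : NCfg Δ a H := by
  classical
  exact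
  { ι := (N.ι × Fin a) ⊕ N.κ
    κ := N.κ × Fin a × Bool
    τ := nτ N a
    c := nc N a r
    lo := nlo N a
    up := nup N a
    X := fun p => nX N a r p.1 p.2.1 p.2.2
    Y := fun p => nY N a r p.1 p.2.1 p.2.2
    K := a * N.K + a + N.Q
    Q := 2 * a * N.Q + a
    hτ := by
      rintro (⟨i, l⟩ | e)
      · exact N.hτ i
      · show N.τ (N.lo e) + Δ ≤ H
        have h1 := N.hΔ e
        have h2 := N.hτ (N.up e)
        omega
    hΔ := by
      rintro ⟨e, l, b⟩
      cases b
      · rfl
      · show N.τ (N.up e) = N.τ (N.lo e) + Δ + Δ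
        rw [N.hΔ e]; ring
    hlo := by
      rintro ⟨e, l, b⟩
      cases b
      · exact eq_lo hΔ e l
      · have h1 := diff_piv (r := r) e l true
        show ((N.τ (N.lo e) + Δ : ℕ) : ℝ) * nX N a r e l true
          + (N.Y e + r / 2 - sl N e * N.X e) = nY N a r e l true
        rw [← h1]; unfold sl; push_cast; ring
    hup := by
      rintro ⟨e, l, b⟩
      cases b
      · have h1 := diff_piv (r := r) e l false
        show ((N.τ (N.lo e) + Δ : ℕ) : ℝ) * nX N a r e l false
          + (N.Y e + r / 2 - sl N e * N.X e) = nY N a r e l false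
        rw [← h1]; unfold sl; push_cast; ring
      · exact eq_up hΔ e l
    hne := by
      rintro ⟨e, l, b⟩ (⟨i, l'⟩ | e') h0 h1
      · show (N.τ i : ℝ) * nX N a r e l b + (N.c i + r * zz a l') ≠ nY N a r e l b
        by_cases hi0 : i = N.lo e
        · intro hc
          rw [hi0] at hc
          obtain ⟨h2, h3⟩ := ne_lo hΔ S e l b l' hc
          apply h0
          rw [hi0, h2, h3]; rfl
        · by_cases hi1 : i = N.up e
          · intro hc
            rw [hi1] at hc
            obtain ⟨h2, h3⟩ := ne_up hΔ S e l b l' hc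
            apply h1
            rw [hi1, h2, h3]; rfl
          · rcases cond_other S hi0 hi1 l b l' with h | h
            · exact h.2.ne
            · exact h.2.ne'
      · have he : e' ≠ e := by
          intro he
          subst he
          cases b
          · exact h1 rfl
          · exact h0 rfl
        have hval : (nτ N a (Sum.inr e') : ℝ) * nX N a r e l b + nc N a r (Sum.inr e')
            = sl N e' * nX N a r e l b + (N.Y e' + r / 2 - sl N e' * N.X e') := by
          simp only [nτ, nc, sl]; push_cast; ring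
        show (nτ N a (Sum.inr e') : ℝ) * nX N a r e l b + nc N a r (Sum.inr e')
          ≠ nY N a r e l b
        rw [hval]
        rcases pivot hΔ S he l b with h | h
        · exact h.2.ne
        · exact h.2.ne'
    hK := by
      rintro ⟨e, l, b⟩
      have := count_lines hΔ S e l b
      convert this
    inj := by
      rintro ⟨e, l, b⟩ ⟨e', l', b'⟩ h
      by_contra hne
      simp only [Prod.mk.injEq] at h
      obtain ⟨hx, hy⟩ := h
      have hΔ' : (1 : ℝ) ≤ Δ := by exact_mod_cast hΔ
      rcases new_rob hΔ S e e' l l' b b' hne with hr | hr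
      · have := hr ((nτ N a (nlo N a (e, l, b)) : ℝ) + 1 / 4) le_rfl (by linarith)
        rw [hx, hy] at this
        simp at this
      · have := hr ((nτ N a (nlo N a (e, l, b)) : ℝ) + 1 / 4) le_rfl (by linarith)
        rw [hx, hy] at this
        simp at this
    robust := by
      rintro ⟨e, l, b⟩ ⟨e', l', b'⟩ h
      have hup : (nτ N a (nup N a (e, l, b)) : ℝ) = (nτ N a (nlo N a (e, l, b)) : ℝ) + Δ := by
        cases b
        · simp [nlo, nup, nτ]
        · simp only [nlo, nup, nτ]
          rw [N.hΔ e]; push_cast; ring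
      rcases new_rob hΔ S e e' l l' b b' h with hr | hr
      · left
        intro s h1 h2
        exact hr s h1 (by rw [hup] at h2; exact h2)
      · right
        intro s h1 h2
        exact hr s h1 (by rw [hup] at h2; exact h2)
    bal := by
      rintro ⟨e, l, b⟩
      have := count_bal hΔ S e l b
      convert this
    good := fun p => p.2.2 = true
    act := fun j => j.isRight = true
    x0 := fun j => match j with
      | Sum.inl _ => 0
      | Sum.inr e => N.X e + r * (3 / 2 - a) / Δ
    h := 2 * r / Δ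
    h_pos := by
      have hΔ' : (0 : ℝ) < Δ := by exact_mod_cast hΔ
      have := S.rpos
      positivity
    pos := fun p => a - 1 - p.2.1
    pos_lt := by
      rintro ⟨e, l, b⟩ _
      show a - 1 - (l : ℕ) < a
      omega
    act_lo := by
      rintro ⟨e, l, b⟩ hb
      simp only at hb
      subst hb
      rfl
    act_up := by
      rintro ⟨e, l, b⟩ hb
      simp only at hb
      subst hb
      simp [nup]
    hX := by
      rintro ⟨e, l, b⟩ hb
      simp only at hb
      subst hb
      have hΔ' : (Δ : ℝ) ≠ 0 := by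
        have : (0 : ℝ) < Δ := by exact_mod_cast hΔ
        exact this.ne'
      have hl : (l : ℕ) < a := l.2
      have hc : ((a - 1 - (l : ℕ) : ℕ) : ℝ) = a - 1 - (l : ℕ) := by
        rw [Nat.cast_sub (by omega), Nat.cast_sub (by omega)]; simp
      show N.X e + r * xi a Δ l true = N.X e + r * (3 / 2 - a) / Δ
        + 2 * r / Δ * ((a - 1 - (l : ℕ) : ℕ) : ℝ)
      rw [hc]
      unfold xi zz
      simp only [if_true]
      field_simp
      ring }

end step

theorem partC_step (Δ V H a : ℕ) (hΔ : 1 ≤ Δ) (ha : 1 ≤ a) (N : NCfg (2 * Δ) V H) :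
    ∃ N' : NCfg Δ a H, Fintype.card N'.ι = a * Fintype.card N.ι + Fintype.card N.κ ∧
      Fintype.card N'.κ = 2 * a * Fintype.card N.κ ∧
      Nat.card {e // N'.good e} = a * Fintype.card N.κ := by
  obtain ⟨r, S⟩ := exists_small N a
  refine ⟨newCfg hΔ ha S, ?_, ?_, ?_⟩
  · show Fintype.card ((N.ι × Fin a) ⊕ N.κ) = _
    rw [Fintype.card_sum, Fintype.card_prod, Fintype.card_fin, mul_comm]
  · show Fintype.card (N.κ × Fin a × Bool) = _
    rw [Fintype.card_prod, Fintype.card_prod, Fintype.card_fin, Fintype.card_bool]; ring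
  · show Nat.card {p : N.κ × Fin a × Bool // p.2.2 = true} = _
    have : Nat.card {p : N.κ × Fin a × Bool // p.2.2 = true} = Nat.card (N.κ × Fin a) := by
      apply Nat.card_congr
      exact
      { toFun := fun p => (p.1.1, p.1.2.1)
        invFun := fun q => ⟨(q.1, q.2, true), rfl⟩
        left_inv := by
          rintro ⟨⟨e, l, b⟩, hb⟩
          simp only at hb
          subst hb
          rfl
        right_inv := fun _ => rfl }
    rw [this, Nat.card_eq_fintype_card, Fintype.card_prod, Fintype.card_fin, mul_comm]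

theorem partC_iter (a : ℕ) (ha : 1 ≤ a) (t : ℕ) : ∀ j : ℕ, ∀ k : ℕ, j + k = t → 1 ≤ j →
    ∃ N : NCfg (2 ^ k) a (2 ^ t),
      Fintype.card N.ι = 2 * a ^ j + a ^ (j - 1) * (2 ^ j - 1) ∧
      Fintype.card N.κ = (2 * a) ^ j ∧
      Nat.card {e // N.good e} = a * (2 * a) ^ (j - 1) := by
  intro j
  induction j with
  | zero => intro k _ h; omega
  | succ j ih =>
    intro k hk _
    by_cases hj : j = 0
    · subst hj
      have hk' : t = k + 1 := by omega
      subst hk'
      obtain ⟨N0, h1, h2, _⟩ := partC_init (2 ^ (k + 1)) Nat.one_le_two_pow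
      have e : 2 ^ (k + 1) = 2 * 2 ^ k := by rw [pow_succ]; ring
      have key : ∀ (D : ℕ), D = 2 * 2 ^ k → ∀ N0 : NCfg D 1 (2 ^ (k + 1)),
          Fintype.card N0.ι = 2 → Fintype.card N0.κ = 1 →
          ∃ N : NCfg (2 ^ k) a (2 ^ (k + 1)),
          Fintype.card N.ι = 2 * a ^ (0 + 1) + a ^ (0 + 1 - 1) * (2 ^ (0 + 1) - 1) ∧
          Fintype.card N.κ = (2 * a) ^ (0 + 1) ∧
          Nat.card {e // N.good e} = a * (2 * a) ^ (0 + 1 - 1) := by
        intro D hD N0 h1 h2
        subst hD
        obtain ⟨N', g1, g2, g3⟩ := partC_step (2 ^ k) 1 (2 ^ (k + 1)) a Nat.one_le_two_pow ha N0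
        refine ⟨N', ?_, ?_, ?_⟩
        · rw [g1, h1, h2]; simp; ring
        · rw [g2, h2]; simp
        · rw [g3, h2]; simp
      exact key _ e N0 h1 h2
    · obtain ⟨N0, h1, h2, _⟩ := ih (k + 1) (by omega) (by omega)
      have e : 2 ^ (k + 1) = 2 * 2 ^ k := by rw [pow_succ]; ring
      have key : ∀ (D : ℕ), D = 2 * 2 ^ k → ∀ N0 : NCfg D a (2 ^ t),
          Fintype.card N0.ι = 2 * a ^ j + a ^ (j - 1) * (2 ^ j - 1) →
          Fintype.card N0.κ = (2 * a) ^ j →
          ∃ N : NCfg (2 ^ k) a (2 ^ t),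
          Fintype.card N.ι = 2 * a ^ (j + 1) + a ^ (j + 1 - 1) * (2 ^ (j + 1) - 1) ∧
          Fintype.card N.κ = (2 * a) ^ (j + 1) ∧
          Nat.card {e // N.good e} = a * (2 * a) ^ (j + 1 - 1) := by
        intro D hD N0 h1 h2
        subst hD
        obtain ⟨N', g1, g2, g3⟩ := partC_step (2 ^ k) a (2 ^ t) a Nat.one_le_two_pow ha N0
        obtain ⟨i, rfl⟩ : ∃ i, j = i + 1 := ⟨j - 1, by omega⟩
        refine ⟨N', ?_, ?_, ?_⟩
        · rw [g1, h1, h2]
          simp only [Nat.add_sub_cancel]
          have hp : 1 ≤ 2 ^ (i + 1) := Nat.one_le_two_pow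
          have hp2 : 1 ≤ 2 ^ (i + 1 + 1) := Nat.one_le_two_pow
          obtain ⟨x, hx⟩ : ∃ x, 2 ^ (i + 1) = x + 1 := ⟨2 ^ (i + 1) - 1, by omega⟩
          have hx2 : 2 ^ (i + 1 + 1) = 2 * x + 2 := by rw [pow_succ, hx]; ring
          rw [mul_pow 2 a, hx2, hx]
          have e1 : x + 1 - 1 = x := by omega
          have e2 : 2 * x + 2 - 1 = 2 * x + 1 := by omega
          rw [e1, e2]
          ring
        · rw [g2, h2]; ring
        · rw [g3, h2]; simp
      exact key _ e N0 h1 h2

theorem partC (t a : ℕ) (ht : 1 ≤ t) (ha : 1 ≤ a) :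
    ∃ T : TCfg a (2 ^ t), Fintype.card T.ι = 2 * a ^ t + a ^ (t - 1) * (2 ^ t - 1) ∧
      Fintype.card T.κ = a * (2 * a) ^ (t - 1) := by
  classical
  obtain ⟨N, h1, _, h3⟩ := partC_iter a ha t t 0 (by omega) ht
  rw [Nat.card_eq_fintype_card] at h3
  refine ⟨{
    ι := N.ι
    κ := {e // N.good e}
    τ := N.τ
    c := N.c
    lo := fun e => N.lo e.1
    up := fun e => N.up e.1
    X := fun e => N.X e.1
    Y := fun e => N.Y e.1
    K := N.K
    hτ := N.hτ
    hΔ := fun e => by simpa using N.hΔ e.1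
    hlo := fun e => N.hlo e.1
    hup := fun e => N.hup e.1
    hne := fun e => N.hne e.1
    hK := fun e => N.hK e.1
    inj := fun e e' h => Subtype.ext (N.inj h)
    act := N.act
    x0 := N.x0
    h := N.h
    h_pos := N.h_pos
    pos := fun e => N.pos e.1
    pos_lt := fun e => N.pos_lt e.1 e.2
    act_lo := fun e => N.act_lo e.1 e.2
    act_up := fun e => N.act_up e.1 e.2
    hX := fun e => N.hX e.1 e.2 }, h1, h3⟩


end Pool.Agent.KL
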