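import Pool.Agent.KL.PartD4

namespace Pool.Agent.KL
open Finset Filter Topology

variable {V H : ℕ} {Θ A B : Finset ℝ} (G : Cfg Θ) (T : TCfg V H) (g M : ℝ)

/-- lower line at a new vertex -/
noncomputable def pNlo (S : Scale H Θ A B) (p : NK G T A) : NI G T B :=
  (G.lo p.1, (⟨p.2.1 - T.τ (T.lo p.2.2) * G.θ p.1,
    S.sub _ p.2.1.2 _ (G.θ_mem p.1) _ (T.hτ _)⟩, (T.lo p.2.2, true)))

/-- upper line at a new vertex -/
noncomputable def pNup (S : Scale H Θ A B) (p : NK G T A) : NI G T B :=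
  (G.lo p.1, (⟨p.2.1 - T.τ (T.up p.2.2) * G.θ p.1,
    S.sub _ p.2.1.2 _ (G.θ_mem p.1) _ (T.hτ _)⟩, (T.up p.2.2, true)))

theorem pNlo_dv (S : Scale H Θ A B) {r : ℝ} (hr : GoodR (A := A) (B := B) G T g M r)
    (p : NK G T A) : dv G T g M r (pNlo G T S p) p = 0 := by
  unfold pNlo
  rw [(hr.core _ _ _).2]
  refine ⟨?_, T.hlo _⟩
  simp

theorem pNup_dv (S : Scale H Θ A B) {r : ℝ} (hr : GoodR (A := A) (B := B) G T g M r)
    (p : NK G T A) : dv G T g M r (pNup G T S p) p = 0 := by
  unfold pNup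
  rw [(hr.core _ _ _).2]
  refine ⟨?_, T.hup _⟩
  simp

theorem other_dv (S : Scale H Θ A B) {r : ℝ} (hr : GoodR (A := A) (B := B) G T g M r)
    (p : NK G T A) (x : NI G T B) (h : dv G T g M r x p = 0) :
    x = pNlo G T S p ∨ x = pNup G T S p := by
  obtain ⟨i, ⟨b, hb⟩, k, cc⟩ := x
  by_cases h1 : i = G.lo p.1
  · subst h1
    cases cc with
    | false => exact absurd h (hr.pass ⟨b, hb⟩ k p).2
    | true =>
      obtain ⟨h2, h3⟩ := ((hr.core ⟨b, hb⟩ k p).2).1 h
      have hk : k = T.lo p.2.2 ∨ k = T.up p.2.2 := by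
        by_contra hc
        push Not at hc
        exact T.hne _ _ hc.1 hc.2 h3
      have hb' : b = p.2.1 - T.τ k * G.θ p.1 := by
        simp only at h2
        linarith
      rcases hk with hk | hk
      · left
        unfold pNlo
        subst hk
        subst hb'
        rfl
      · right
        unfold pNup
        subst hk
        subst hb'
        rfl
  · by_cases h2 : i = G.up p.1
    · subst h2
      exact absurd h (hr.up ⟨b, hb⟩ k cc p).2
    · exact absurd h (hr.far (i, ⟨b, hb⟩, k, cc) p h1 h2).2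

theorem dv_zero_iff (r : ℝ) (x : NI G T B) (p : NK G T A) :
    dv G T g M r x p = 0 ↔ nS G T r x * pNX G T r p + nC G T g M r x = pNY G T r p := by
  unfold dv
  exact sub_eq_zero

/-- activity of the new lines -/
def nact (x : NI G T B) : Prop := G.act x.1 ∧ x.2.2.2 = true ∧ T.act x.2.2.1

theorem nact_lo (S : Scale H Θ A B) (p : NK G T A) : nact G T (pNlo G T S p) :=
  ⟨G.act_lo _, rfl, T.act_lo _⟩

theorem nact_up (S : Scale H Θ A B) (p : NK G T A) : ¬ nact G T (pNup G T S p) :=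
  fun h => T.act_up _ h.2.2

theorem n_inj (S : Scale H Θ A B) {r : ℝ} (hr : GoodR (A := A) (B := B) G T g M r) :
    Function.Injective (fun p : NK G T A => (pNX G T r p, pNY G T r p)) := by
  intro p p' h
  simp only [Prod.mk.injEq] at h
  obtain ⟨hX, hY⟩ := h
  have e1 : dv G T g M r (pNlo G T S p) p' = 0 := by
    rw [dv_zero_iff, ← hX, ← hY, ← dv_zero_iff]
    exact pNlo_dv G T g M S hr p
  have e2 : dv G T g M r (pNup G T S p) p' = 0 := by
    rw [dv_zero_iff, ← hX, ← hY, ← dv_zero_iff]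
    exact pNup_dv G T g M S hr p
  have f1 : pNlo G T S p = pNlo G T S p' := by
    rcases other_dv G T g M S hr p' _ e1 with h | h
    · exact h
    · exact absurd (h ▸ nact_lo G T S p) (nact_up G T S p')
  have f2 : pNup G T S p = pNup G T S p' := by
    rcases other_dv G T g M S hr p' _ e2 with h | h
    · exact absurd (nact_lo G T S p') (h ▸ nact_up G T S p)
    · exact h
  obtain ⟨e, ⟨α, hα⟩, v⟩ := p
  obtain ⟨e', ⟨α', hα'⟩, v'⟩ := p'
  simp only [pNlo, pNup, Prod.mk.injEq, Subtype.mk.injEq, and_true] at f1 f2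
  obtain ⟨a1, a2, a3⟩ := f1
  obtain ⟨_, b2, b3⟩ := f2
  have t1 : (T.τ (T.up v) : ℝ) = T.τ (T.lo v) + 1 := by exact_mod_cast T.hΔ v
  have t2 : (T.τ (T.up v') : ℝ) = T.τ (T.lo v') + 1 := by exact_mod_cast T.hΔ v'
  rw [t1, t2, ← a3] at b2
  rw [← a3] at a2
  have hθ : G.θ e = G.θ e' := by linarith
  have hαα : α = α' := by rw [hθ] at a2; linarith
  have hee : e = e' := by
    apply G.inj
    have hx : G.X e = G.X e' := by rw [G.hX, G.hX, a1, hθ]
    simp only [Prod.mk.injEq]
    refine ⟨hx, ?_⟩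
    rw [← G.hlo e, ← G.hlo e', a1, hx]
  have hvv : v = v' := by
    apply T.inj
    have c1 := T.hlo v
    have c2 := T.hup v
    have c3 := T.hlo v'
    have c4 := T.hup v'
    rw [t1] at c2
    rw [t2, ← b3, ← a3] at c4
    rw [← a3] at c3
    have hx : T.X v = T.X v' := by linarith
    simp only [Prod.mk.injEq]
    refine ⟨hx, ?_⟩
    rw [← c1, ← c3, hx]
  subst hαα hee hvv
  rfl

theorem partD_prod (V H : ℕ) (Θ A B : Finset ℝ) (S : Scale H Θ A B) (G : Cfg Θ)
    (T : TCfg V H) :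
    ∃ r0 > 0, ∀ r : ℝ, 0 < r → r < r0 →
      ∃ G' : Cfg (Finset.image (fun p : ℝ × ℕ => p.1 + (r ^ 2 * T.h) * p.2)
          (Θ ×ˢ Finset.range V)),
        Fintype.card G'.ι = Fintype.card G.ι * (B.card * (2 * Fintype.card T.ι)) ∧
        Fintype.card G'.κ = Fintype.card G.κ * (A.card * Fintype.card T.κ) := by
  classical
  obtain ⟨g, hg, hgap⟩ := S.gap
  obtain ⟨M0, hM0⟩ := (Set.finite_range
    (fun kv : T.ι × T.κ => (T.τ kv.1 : ℝ) * T.X kv.2 + T.Y kv.2)).bddAbove
  have hM : ∀ (k : T.ι) (v : T.κ), (T.τ k : ℝ) * T.X v + T.Y v < M0 + 1 := by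
    intro k v
    have := hM0 (Set.mem_range_self (k, v))
    simp only at this
    linarith
  have hev := goodR_ev (A := A) (B := B) G T g (M0 + 1) hM hg hgap S.AB
  rw [Filter.Eventually, mem_nhdsGT_iff_exists_Ioo_subset] at hev
  obtain ⟨r0, hr0, hsub⟩ := hev
  refine ⟨r0, hr0, fun r hr1 hr2 => ?_⟩
  have hr : GoodR (A := A) (B := B) G T g (M0 + 1) r := hsub ⟨hr1, hr2⟩
  have hη : ∀ i, 0 < r / G.D i := fun i => div_pos hr1 (G.D_pos i)
  refine ⟨{ ι := NI G T B
            κ := NK G T A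
            s := nS G T r
            c := nC G T g (M0 + 1) r
            lo := pNlo G T S
            up := pNup G T S
            X := pNX G T r
            Y := pNY G T r
            K := G.K * (B.card * (2 * Fintype.card T.ι)) + 2 * Fintype.card T.ι * B.card + T.K
            hlo := fun p => (dv_zero_iff G T g (M0 + 1) r _ p).1 (pNlo_dv G T g _ S hr p)
            hup := fun p => (dv_zero_iff G T g (M0 + 1) r _ p).1 (pNup_dv G T g _ S hr p)
            hne := ?_
            hK := fun p => count G T g (M0 + 1) S hr p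
            inj := n_inj G T g (M0 + 1) S hr
            act := nact G T
            D := fun x => r ^ 2 * G.h x.1 / ((G.h x.1 + r / G.D x.1 * (T.τ x.2.2.1 + 1)) *
              (G.h x.1 + r / G.D x.1 * T.τ x.2.2.1))
            x0 := fun x => G.x0 x.1 + r / G.D x.1 * (x.2.1 + r ^ 2 * T.c x.2.2.1) +
              (G.h x.1 + r / G.D x.1 * T.τ x.2.2.1) * (r ^ 2 * T.x0 x.2.2.1)
            h := fun x => G.h x.1 + r / G.D x.1 * T.τ x.2.2.1
            D_pos := ?_
            h_pos := ?_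
            θ := fun p => G.θ p.1 + (r ^ 2 * T.h) * T.pos p.2.2
            θ_mem := ?_
            act_lo := nact_lo G T S
            act_up := nact_up G T S
            hD := ?_
            hX := ?_ }, ?_, ?_⟩
  · intro p x h1 h2 h3
    rw [← dv_zero_iff] at h3
    rcases other_dv G T g (M0 + 1) S hr p x h3 with h | h
    · exact h1 h
    · exact h2 h
  · intro x
    have h1 := G.h_pos x.1
    have h2 := hη x.1
    have h3 : (0 : ℝ) ≤ T.τ x.2.2.1 := by positivity
    positivity
  · intro x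
    have h1 := G.h_pos x.1
    have h2 := hη x.1
    have h3 : (0 : ℝ) ≤ T.τ x.2.2.1 := by positivity
    positivity
  · intro p
    rw [Finset.mem_image]
    exact ⟨(G.θ p.1, T.pos p.2.2), by
      rw [Finset.mem_product, Finset.mem_range]
      exact ⟨G.θ_mem _, T.pos_lt _⟩, rfl⟩
  · intro p
    have ha : G.act (G.lo p.1) := G.act_lo _
    have h1 := G.h_pos (G.lo p.1)
    have h2 := hη (G.lo p.1)
    have h3 : (0 : ℝ) ≤ T.τ (T.lo p.2.2) := by positivity
    have t1 : (T.τ (T.up p.2.2) : ℝ) = T.τ (T.lo p.2.2) + 1 := by exact_mod_cast T.hΔ p.2.2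
    simp only [nS, pNlo, pNup, if_pos ha, tS, rS, if_true, t1]
    generalize r / G.D (G.lo p.1) = η at h2 ⊢
    have h4 : G.h (G.lo p.1) + η * ((T.τ (T.lo p.2.2) : ℝ) + 1) ≠ 0 := by positivity
    have h5 : G.h (G.lo p.1) + η * (T.τ (T.lo p.2.2) : ℝ) ≠ 0 := by positivity
    field_simp
    ring
  · intro p
    simp only [pNX, pX, pNlo]
    have h1 := T.hX p.2.2
    have h2 := T.hlo p.2.2
    rw [← h2, h1]
    ring
  · simp only [NI, Fintype.card_prod, Fintype.card_coe, Fintype.card_bool]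
    ring
  · simp only [NK, Fintype.card_prod, Fintype.card_coe]

end Pool.Agent.KL
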