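import Pool.Agent.KL.Defs

namespace Pool.Agent.KL
open Finset

/-- the digit map -/
def dig (γ : ℝ) (p : ℝ × ℕ) : ℝ := p.1 + γ * p.2

theorem dig_lt_iff {B : Finset ℝ} {g γ : ℝ} {L : ℕ} (hgap : ∀ b ∈ B, ∀ b' ∈ B, b < b' → b + g ≤ b')
    (hγ : 0 < γ) (hγL : γ * L < g) {b b' : ℝ} (hb : b ∈ B) (hb' : b' ∈ B) {k j : ℕ}
    (hk : k < L) (hj : j < L) :
    dig γ (b, k) < dig γ (b', j) ↔ b < b' ∨ (b = b' ∧ k < j) := by
  have hk' : (k : ℝ) < L := by exact_mod_cast hk
  have hj' : (j : ℝ) < L := by exact_mod_cast hj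
  have hk0 : (0 : ℝ) ≤ k := by positivity
  have hj0 : (0 : ℝ) ≤ j := by positivity
  have h1 : γ * k < g := lt_of_le_of_lt (mul_le_mul_of_nonneg_left hk'.le hγ.le) hγL
  have h2 : γ * j < g := lt_of_le_of_lt (mul_le_mul_of_nonneg_left hj'.le hγ.le) hγL
  have h3 : 0 ≤ γ * k := by positivity
  have h4 : 0 ≤ γ * j := by positivity
  unfold dig
  simp only
  rcases lt_trichotomy b b' with h | h | h
  · have := hgap b hb b' hb' h
    constructor
    · intro _; exact Or.inl h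
    · intro _; linarith
  · subst h
    constructor
    · intro h5
      right
      refine ⟨rfl, ?_⟩
      have : γ * (k : ℝ) < γ * j := by linarith
      have := lt_of_mul_lt_mul_left this hγ.le
      exact_mod_cast this
    · rintro (h5 | ⟨_, h5⟩)
      · exact absurd h5 (lt_irrefl _)
      · have : (k : ℝ) < j := by exact_mod_cast h5
        have := mul_lt_mul_of_pos_left this hγ
        linarith
  · have := hgap b' hb' b hb h
    constructor
    · intro h5
      exfalso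
      linarith
    · rintro (h5 | ⟨h5, _⟩)
      · exact absurd h5 (not_lt.mpr h.le)
      · exact absurd h5 (ne_of_gt h)

theorem dig_inj {B : Finset ℝ} {g γ : ℝ} {L : ℕ} (hgap : ∀ b ∈ B, ∀ b' ∈ B, b < b' → b + g ≤ b')
    (hγ : 0 < γ) (hγL : γ * L < g) {b b' : ℝ} (hb : b ∈ B) (hb' : b' ∈ B) {k j : ℕ}
    (hk : k < L) (hj : j < L) (h : dig γ (b, k) = dig γ (b', j)) : b = b' ∧ k = j := by
  have h1 := dig_lt_iff hgap hγ hγL hb hb' hk hj
  have h2 := dig_lt_iff hgap hγ hγL hb' hb hj hk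
  rw [h] at h1 h2
  simp only [lt_self_iff_false, false_iff, not_or, not_and, not_lt] at h1 h2
  have e : b = b' := le_antisymm h2.1 h1.1
  exact ⟨e, le_antisymm (h2.2 e.symm) (h1.2 e)⟩

theorem rank_dig {B : Finset ℝ} {g γ : ℝ} {L : ℕ} (hgap : ∀ b ∈ B, ∀ b' ∈ B, b < b' → b + g ≤ b')
    (hγ : 0 < γ) (hγL : γ * L < g) {β : ℝ} (hβ : β ∈ B) {j : ℕ} (hj : j < L) :
    ((Finset.image (dig γ) (B ×ˢ Finset.range L)).filter fun b => b < dig γ (β, j)).card =
      L * (B.filter fun b => b < β).card + j := by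
  classical
  rw [Finset.filter_image]
  rw [Finset.card_image_of_injOn]
  · have : (B ×ˢ Finset.range L).filter (fun a => dig γ a < dig γ (β, j)) =
        ((B.filter fun b => b < β) ×ˢ Finset.range L) ∪ ({β} ×ˢ Finset.range j) := by
      ext ⟨b, k⟩
      simp only [mem_filter, mem_product, mem_range, mem_union, mem_singleton]
      constructor
      · rintro ⟨⟨hb, hk⟩, h⟩
        rcases (dig_lt_iff hgap hγ hγL hb hβ hk hj).1 h with h | h
        · exact Or.inl ⟨⟨hb, h⟩, hk⟩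
        · exact Or.inr h
      · rintro (⟨⟨hb, h⟩, hk⟩ | ⟨h, hk⟩)
        · exact ⟨⟨hb, hk⟩, (dig_lt_iff hgap hγ hγL hb hβ hk hj).2 (Or.inl h)⟩
        · subst h
          exact ⟨⟨hβ, hk.trans hj⟩, (dig_lt_iff hgap hγ hγL hβ hβ (hk.trans hj) hj).2
            (Or.inr ⟨rfl, hk⟩)⟩
    rw [this, Finset.card_union_of_disjoint]
    · simp [Finset.card_product, mul_comm]
    · rw [Finset.disjoint_left]
      rintro ⟨b, k⟩ h1 h2
      simp only [mem_filter, mem_product, mem_range, mem_singleton] at h1 h2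
      exact absurd h1.1.2 (by rw [h2.1]; exact lt_irrefl _)
  · rintro ⟨b, k⟩ h1 ⟨b', k'⟩ h2 h
    simp only [coe_filter, mem_product, mem_range, Set.mem_ofPred_eq] at h1 h2
    obtain ⟨e1, e2⟩ := dig_inj hgap hγ hγL h1.1.1 h2.1.1 h1.1.2 h2.1.2 h
    rw [e1, e2]

theorem partD_scale (H V L : ℕ) (hL : 2 * (H * V) < L) (Θ A B : Finset ℝ)
    (S : Scale H Θ A B) :
    ∃ γ0 > 0, ∀ γ : ℝ, 0 < γ → γ < γ0 →
      ∃ A' B' : Finset ℝ, Scale H
        (Finset.image (fun p : ℝ × ℕ => p.1 + γ * p.2) (Θ ×ˢ Finset.range V)) A' B' ∧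
        A'.card = A.card * (L - 2 * (H * V)) ∧ B'.card = B.card * L := by
  classical
  obtain ⟨g, hg, hgap⟩ := S.gap
  have hLpos : (0 : ℝ) < L := by
    have : 0 < L := by omega
    exact_mod_cast this
  refine ⟨g / L, div_pos hg hLpos, ?_⟩
  intro γ hγ hγ0
  have hγL : γ * L < g := by rwa [lt_div_iff₀ hLpos] at hγ0
  refine ⟨Finset.image (dig γ) (A ×ˢ Finset.Ico (H * V) (L - H * V)),
    Finset.image (dig γ) (B ×ˢ Finset.range L), ?_, ?_, ?_⟩
  · have key : ∀ (α : ℝ) (a : ℕ) (θ : ℝ) (v : ℕ) (τ : ℕ), α ∈ A → H * V ≤ a → a < L - H * V →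
        θ ∈ Θ → v < V → τ ≤ H →
        dig γ (α, a) - τ * (θ + γ * v) = dig γ (α - τ * θ, a - τ * v) ∧
        dig γ (α, a) + τ * (θ + γ * v) = dig γ (α + τ * θ, a + τ * v) ∧
        a - τ * v < L ∧ a + τ * v < L ∧ τ * v ≤ a := by
      intro α a θ v τ hα ha1 ha2 hθ hv hτ
      have h1 : τ * v ≤ H * V := Nat.mul_le_mul hτ hv.le
      have h2 : τ * v ≤ a := h1.trans ha1
      refine ⟨?_, ?_, by omega, by omega, h2⟩
      · unfold dig
        push_cast [Nat.cast_sub h2]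
        ring
      · unfold dig
        push_cast
        ring
    constructor
    · intro x hx
      simp only [mem_image, mem_product, mem_Ico, mem_range, Prod.exists] at hx ⊢
      obtain ⟨α, a, ⟨hα, ha⟩, rfl⟩ := hx
      exact ⟨α, a, ⟨S.AB hα, by omega⟩, rfl⟩
    · intro x hx t ht τ hτ
      simp only [mem_image, mem_product, mem_Ico, mem_range, Prod.exists] at hx ht ⊢
      obtain ⟨α, a, ⟨hα, ha⟩, rfl⟩ := hx
      obtain ⟨θ, v, ⟨hθ, hv⟩, rfl⟩ := ht
      obtain ⟨k1, k2, k3, k4, k5⟩ := key α a θ v τ hα ha.1 ha.2 hθ hv hτ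
      exact ⟨α - τ * θ, a - τ * v, ⟨S.sub α hα θ hθ τ hτ, k3⟩, k1.symm⟩
    · intro x hx t ht τ hτ
      simp only [mem_image, mem_product, mem_Ico, mem_range, Prod.exists] at hx ht ⊢
      obtain ⟨α, a, ⟨hα, ha⟩, rfl⟩ := hx
      obtain ⟨θ, v, ⟨hθ, hv⟩, rfl⟩ := ht
      obtain ⟨k1, k2, k3, k4, k5⟩ := key α a θ v τ hα ha.1 ha.2 hθ hv hτ
      exact ⟨α + τ * θ, a + τ * v, ⟨S.add α hα θ hθ τ hτ, k4⟩, k2.symm⟩
    · intro x hx t ht τ hτ
      simp only [mem_image, mem_product, mem_Ico, mem_range, Prod.exists] at hx ht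
      obtain ⟨α, a, ⟨hα, ha⟩, rfl⟩ := hx
      obtain ⟨θ, v, ⟨hθ, hv⟩, rfl⟩ := ht
      obtain ⟨k1, k2, k3, k4, k5⟩ := key α a θ v τ hα ha.1 ha.2 hθ hv hτ
      rw [k1, k2, rank_dig hgap hγ hγL (S.sub α hα θ hθ τ hτ) k3,
        rank_dig hgap hγ hγL (S.add α hα θ hθ τ hτ) k4,
        rank_dig hgap hγ hγL (S.AB hα) (by omega)]
      have := S.rank α hα θ hθ τ hτ
      have h6 : L * (B.filter fun b => b < α - τ * θ).card +
          L * (B.filter fun b => b < α + τ * θ).card = 2 * (L * (B.filter fun b => b < α).card) := by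
        rw [← mul_add, this]; ring
      omega
    · refine ⟨γ, hγ, ?_⟩
      intro x hx y hy hxy
      simp only [mem_image, mem_product, mem_range, Prod.exists] at hx hy
      obtain ⟨b, k, ⟨hb, hk⟩, rfl⟩ := hx
      obtain ⟨b', k', ⟨hb', hk'⟩, rfl⟩ := hy
      have hkL : (k : ℝ) + 1 ≤ L := by exact_mod_cast hk
      have hk0 : (0 : ℝ) ≤ k' := by positivity
      rcases (dig_lt_iff hgap hγ hγL hb hb' hk hk').1 hxy with h | ⟨h, h'⟩
      · have := hgap b hb b' hb' h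
        unfold dig
        simp only
        have h7 : γ * ((k : ℝ) + 1) ≤ γ * L := mul_le_mul_of_nonneg_left hkL hγ.le
        have h8 : 0 ≤ γ * k' := by positivity
        linarith
      · subst h
        unfold dig
        simp only
        have : (k : ℝ) + 1 ≤ k' := by exact_mod_cast h'
        have := mul_le_mul_of_nonneg_left this hγ.le
        linarith
  · rw [Finset.card_image_of_injOn]
    · rw [Finset.card_product, Nat.card_Ico]
      congr 1
      omega
    · rintro ⟨b, k⟩ h1 ⟨b', k'⟩ h2 h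
      simp only [coe_product, coe_Ico, Set.mem_prod, mem_coe, Set.mem_Ico] at h1 h2
      obtain ⟨e1, e2⟩ := dig_inj hgap hγ hγL (S.AB h1.1) (S.AB h2.1) (by omega) (by omega) h
      rw [e1, e2]
  · rw [Finset.card_image_of_injOn]
    · rw [Finset.card_product, Finset.card_range]
    · rintro ⟨b, k⟩ h1 ⟨b', k'⟩ h2 h
      simp only [coe_product, coe_range, Set.mem_prod, mem_coe, Set.mem_Iio] at h1 h2
      obtain ⟨e1, e2⟩ := dig_inj hgap hγ hγL h1.1 h2.1 h1.2 h2.2 h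
      rw [e1, e2]

end Pool.Agent.KL
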