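import Pool.Agent.KL.PartD1

namespace Pool.Agent.KL
open Finset Filter Topology

theorem ev_pos {f : ℝ → ℝ} (hf : ContinuousAt f 0) (h : 0 < f 0) :
    ∀ᶠ r in 𝓝[>] (0 : ℝ), 0 < f r :=
  (hf.eventually (lt_mem_nhds h)).filter_mono nhdsWithin_le_nhds

theorem ev_neg {f : ℝ → ℝ} (hf : ContinuousAt f 0) (h : f 0 < 0) :
    ∀ᶠ r in 𝓝[>] (0 : ℝ), f r < 0 :=
  (hf.eventually (gt_mem_nhds h)).filter_mono nhdsWithin_le_nhds

theorem ev_rpos : ∀ᶠ r in 𝓝[>] (0 : ℝ), 0 < r := eventually_mem_nhdsWithin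

/-- slope of a row line in a strip -/
noncomputable def rS (s h D t r : ℝ) : ℝ := s + r ^ 2 * t / (h + r / D * t)

/-- intercept of a row line in a strip -/
noncomputable def rC (c h D x0 t q r : ℝ) : ℝ := c + r ^ 2 * (q * h - t * x0) / (h + r / D * t)

/-- abscissa of a point in a strip -/
noncomputable def pX (h D x0 θ Z r : ℝ) : ℝ := x0 + h * θ + r / D * Z

theorem act_val (s c h D x0 r t q θ Z : ℝ) (hden : h + r / D * t ≠ 0) :
    rS s h D t r * pX h D x0 θ Z r + rC c h D x0 t q r - (s * pX h D x0 θ Z r + c + r ^ 2 * Z) =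
      r ^ 2 * h * (t * θ + q - Z) / (h + r / D * t) := by
  unfold rS rC pX
  generalize r / D = η at hden ⊢
  have h1 : r ^ 2 * t / (h + η * t) * (x0 + h * θ + η * Z) + r ^ 2 * (q * h - t * x0) / (h + η * t)
      - r ^ 2 * Z = r ^ 2 * h * (t * θ + q - Z) / (h + η * t) := by
    rw [eq_div_iff hden]
    have e1 : r ^ 2 * t / (h + η * t) * (h + η * t) = r ^ 2 * t := div_mul_cancel₀ _ hden
    have e2 : r ^ 2 * (q * h - t * x0) / (h + η * t) * (h + η * t) = r ^ 2 * (q * h - t * x0) :=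
      div_mul_cancel₀ _ hden
    linear_combination (x0 + h * θ + η * Z) * e1 + e2
  linear_combination h1

theorem inact_val (sw cw su cu D xe ye b g r h X Y α θ x0 : ℝ) (hDp : D ≠ 0)
    (hw : sw * xe + cw = ye) (hu : su * xe + cu = ye) (hs : sw = su + D) (hx : xe = x0 + h * θ) :
    sw * pX h D x0 (θ + r ^ 2 * X) (α + r ^ 2 * Y) r + (cw - r * (b + g / 2)) -
      (su * pX h D x0 (θ + r ^ 2 * X) (α + r ^ 2 * Y) r + cu + r ^ 2 * (α + r ^ 2 * Y)) =
      r * ((α - b - g / 2) + (r ^ 2 * Y + r * (D * h * X) - r * (α + r ^ 2 * Y))) := by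
  have h1 : cw = cu - D * xe := by
    subst hs
    linear_combination hw - hu
  subst h1
  subst hs
  subst hx
  unfold pX
  field_simp
  ring

end Pool.Agent.KL
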