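import Pool.Agent.KL.PartD2

namespace Pool.Agent.KL
open Finset Filter Topology

variable {V H : ℕ} {Θ A B : Finset ℝ} (G : Cfg Θ) (T : TCfg V H) (g M : ℝ)

/-- index type of the new lines -/
abbrev NI (B : Finset ℝ) : Type := G.ι × ({b : ℝ // b ∈ B} × (T.ι × Bool))

/-- index type of the new vertices -/
abbrev NK (A : Finset ℝ) : Type := G.κ × ({α : ℝ // α ∈ A} × T.κ)

/-- slope of a row in strip coordinates -/
noncomputable def tS (k : T.ι) (cc : Bool) : ℝ := if cc then (T.τ k : ℝ) else -(T.τ k : ℝ)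

/-- offset of a row in strip coordinates -/
noncomputable def nq (b : ℝ) (k : T.ι) (cc : Bool) (r : ℝ) : ℝ :=
  b + r ^ 2 * (if cc then T.c k else M)

open Classical in
/-- slopes of the new lines -/
noncomputable def nS (r : ℝ) (x : NI G T B) : ℝ :=
  if G.act x.1 then rS (G.s x.1) (G.h x.1) (G.D x.1) (tS T x.2.2.1 x.2.2.2) r else G.s x.1

open Classical in
/-- intercepts of the new lines -/
noncomputable def nC (r : ℝ) (x : NI G T B) : ℝ :=
  if G.act x.1 then rC (G.c x.1) (G.h x.1) (G.D x.1) (G.x0 x.1) (tS T x.2.2.1 x.2.2.2)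
    (nq T M x.2.1 x.2.2.1 x.2.2.2 r) r
  else G.c x.1 - r * (x.2.1 + g / 2)

/-- abscissas of the new vertices -/
noncomputable def pNX (r : ℝ) (p : NK G T A) : ℝ :=
  pX (G.h (G.lo p.1)) (G.D (G.lo p.1)) (G.x0 (G.lo p.1)) (G.θ p.1 + r ^ 2 * T.X p.2.2)
    (p.2.1 + r ^ 2 * T.Y p.2.2) r

/-- ordinates of the new vertices -/
noncomputable def pNY (r : ℝ) (p : NK G T A) : ℝ :=
  G.s (G.lo p.1) * pNX G T r p + G.c (G.lo p.1) + r ^ 2 * (p.2.1 + r ^ 2 * T.Y p.2.2)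

/-- height of the new line above the new vertex -/
noncomputable def dv (r : ℝ) (x : NI G T B) (p : NK G T A) : ℝ :=
  nS G T r x * pNX G T r p + nC G T g M r x - pNY G T r p

theorem den_ev (h D t : ℝ) (hh : 0 < h) : ∀ᶠ r in 𝓝[>] (0 : ℝ), 0 < h + r / D * t := by
  apply ev_pos
  · fun_prop
  · simpa using hh

theorem rS_cont (s h D t : ℝ) (hh : 0 < h) : ContinuousAt (fun r => rS s h D t r) 0 := by
  unfold rS
  have : h + 0 / D * t ≠ 0 := by simpa using hh.ne'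
  fun_prop (disch := assumption)

theorem rC_cont (c h D x0 t : ℝ) (q : ℝ → ℝ) (hq : Continuous q) (hh : 0 < h) :
    ContinuousAt (fun r => rC c h D x0 t (q r) r) 0 := by
  unfold rC
  have : h + 0 / D * t ≠ 0 := by simpa using hh.ne'
  fun_prop (disch := assumption)

theorem pNX_cont (p : NK G T A) : ContinuousAt (fun r => pNX G T r p) 0 := by
  unfold pNX pX
  fun_prop

theorem pNY_cont (p : NK G T A) : ContinuousAt (fun r => pNY G T r p) 0 := by
  unfold pNY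
  have := pNX_cont G T p
  fun_prop

theorem pNX_zero (p : NK G T A) : pNX G T 0 p = G.X p.1 := by
  unfold pNX pX
  rw [G.hX]
  simp

theorem pNY_zero (p : NK G T A) : pNY G T 0 p = G.Y p.1 := by
  unfold pNY
  rw [pNX_zero, ← G.hlo]
  simp

theorem nS_cont (x : NI G T B) : ContinuousAt (fun r => nS G T r x) 0 := by
  unfold nS
  split_ifs
  · exact rS_cont _ _ _ _ (G.h_pos _)
  · fun_prop

theorem nC_cont (x : NI G T B) : ContinuousAt (fun r => nC G T g M r x) 0 := by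
  unfold nC
  split_ifs
  · apply rC_cont _ _ _ _ _ _ _ (G.h_pos _)
    unfold nq
    fun_prop
  · fun_prop

theorem nS_zero (x : NI G T B) : nS G T 0 x = G.s x.1 := by
  unfold nS rS
  split_ifs <;> simp

theorem nC_zero (x : NI G T B) : nC G T g M 0 x = G.c x.1 := by
  unfold nC rC
  split_ifs <;> simp

theorem dv_cont (x : NI G T B) (p : NK G T A) : ContinuousAt (fun r => dv G T g M r x p) 0 := by
  unfold dv
  have h1 := nS_cont G T x
  have h2 := nC_cont G T g M x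
  have h3 := pNX_cont G T p
  have h4 := pNY_cont G T p
  fun_prop

theorem dv_zero (x : NI G T B) (p : NK G T A) :
    dv G T g M 0 x p = G.s x.1 * G.X p.1 + G.c x.1 - G.Y p.1 := by
  unfold dv
  rw [nS_zero, nC_zero, pNX_zero, pNY_zero]

theorem class_far (x : NI G T B) (p : NK G T A) (h1 : x.1 ≠ G.lo p.1) (h2 : x.1 ≠ G.up p.1) :
    ∀ᶠ r in 𝓝[>] (0 : ℝ), (dv G T g M r x p < 0 ↔ G.s x.1 * G.X p.1 + G.c x.1 < G.Y p.1) ∧
      dv G T g M r x p ≠ 0 := by
  have hne := G.hne p.1 x.1 h1 h2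
  rcases lt_or_gt_of_ne hne with h | h
  · have := ev_neg (dv_cont G T g M x p) (by rw [dv_zero]; linarith)
    filter_upwards [this] with r hr
    exact ⟨⟨fun _ => h, fun _ => hr⟩, hr.ne⟩
  · have := ev_pos (dv_cont G T g M x p) (by rw [dv_zero]; linarith)
    filter_upwards [this] with r hr
    exact ⟨⟨fun h3 => absurd h3 (not_lt.mpr hr.le), fun h3 => absurd h3 (not_lt.mpr h.le)⟩, hr.ne'⟩

theorem dv_act (r : ℝ) (x : NI G T B) (p : NK G T A) (h1 : x.1 = G.lo p.1)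
    (hden : G.h x.1 + r / G.D x.1 * tS T x.2.2.1 x.2.2.2 ≠ 0) :
    dv G T g M r x p = r ^ 2 * G.h x.1 *
      (tS T x.2.2.1 x.2.2.2 * (G.θ p.1 + r ^ 2 * T.X p.2.2) + nq T M x.2.1 x.2.2.1 x.2.2.2 r -
        (p.2.1 + r ^ 2 * T.Y p.2.2)) / (G.h x.1 + r / G.D x.1 * tS T x.2.2.1 x.2.2.2) := by
  have ha : G.act x.1 := by rw [h1]; exact G.act_lo _
  rw [← act_val (G.s x.1) (G.c x.1) (G.h x.1) (G.D x.1) (G.x0 x.1) r _ _ _ _ hden]
  unfold dv pNY nS nC pNX
  rw [if_pos ha, if_pos ha, h1]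

theorem neg_of_mul_neg {a b : ℝ} (ha : 0 < a) (h : a * b < 0) : b < 0 := by
  by_contra hc
  push Not at hc
  exact absurd h (not_lt.mpr (mul_nonneg ha.le hc))

theorem class_core (b : {b : ℝ // b ∈ B}) (k : T.ι) (p : NK G T A) :
    ∀ᶠ r in 𝓝[>] (0 : ℝ),
      (dv G T g M r ((G.lo p.1, (b, (k, true))) : NI G T B) p < 0 ↔
        ((b : ℝ) + T.τ k * G.θ p.1 < p.2.1 ∨
          ((b : ℝ) + T.τ k * G.θ p.1 = p.2.1 ∧ (T.τ k : ℝ) * T.X p.2.2 + T.c k < T.Y p.2.2))) ∧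
      (dv G T g M r ((G.lo p.1, (b, (k, true))) : NI G T B) p = 0 ↔
        ((b : ℝ) + T.τ k * G.θ p.1 = p.2.1 ∧ (T.τ k : ℝ) * T.X p.2.2 + T.c k = T.Y p.2.2)) := by
  set x : NI G T B := (G.lo p.1, (b, (k, true))) with hx
  have hh : 0 < G.h x.1 := G.h_pos _
  have hW : ContinuousAt (fun r : ℝ => ((b : ℝ) + T.τ k * G.θ p.1 - p.2.1) +
      r ^ 2 * ((T.τ k : ℝ) * T.X p.2.2 + T.c k - T.Y p.2.2)) 0 := by fun_prop
  have hform : ∀ᶠ r in 𝓝[>] (0 : ℝ), 0 < r ^ 2 * G.h x.1 / (G.h x.1 + r / G.D x.1 * (T.τ k)) ∧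
      dv G T g M r x p = (r ^ 2 * G.h x.1 / (G.h x.1 + r / G.D x.1 * (T.τ k))) *
      (((b : ℝ) + T.τ k * G.θ p.1 - p.2.1) +
      r ^ 2 * ((T.τ k : ℝ) * T.X p.2.2 + T.c k - T.Y p.2.2)) := by
    filter_upwards [ev_rpos, den_ev (G.h x.1) (G.D x.1) (T.τ k) hh] with r hr hden
    refine ⟨by positivity, ?_⟩
    have ht : tS T x.2.2.1 x.2.2.2 = T.τ k := by simp [hx, tS]
    rw [dv_act G T g M r x p rfl (by rw [ht]; exact hden.ne'), ht]
    simp only [nq, hx]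
    simp only [if_true]
    ring
  rcases lt_trichotomy ((b : ℝ) + T.τ k * G.θ p.1) p.2.1 with h | h | h
  · have hneg := ev_neg hW (by norm_num; linarith)
    filter_upwards [hform, hneg] with r hr hn
    have : dv G T g M r x p < 0 := by rw [hr.2]; exact mul_neg_of_pos_of_neg hr.1 hn
    exact ⟨⟨fun _ => Or.inl h, fun _ => this⟩, ⟨fun h0 => absurd h0 this.ne, fun h0 => absurd h0.1 h.ne⟩⟩
  · filter_upwards [hform, ev_rpos] with r hr hrp
    have h0 : (b : ℝ) + T.τ k * G.θ p.1 - p.2.1 = 0 := by linarith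
    rw [h0, zero_add] at hr
    obtain ⟨h3, h4⟩ := hr
    have h5 : 0 < r ^ 2 := by positivity
    constructor
    · constructor
      · intro h6
        rw [h4] at h6
        have h7 := neg_of_mul_neg h3 h6
        have h8 := neg_of_mul_neg h5 h7
        exact Or.inr ⟨h, by linarith⟩
      · rintro (h6 | ⟨_, h6⟩)
        · exact absurd h6 (by rw [h]; exact lt_irrefl _)
        · rw [h4]
          exact mul_neg_of_pos_of_neg h3 (mul_neg_of_pos_of_neg h5 (by linarith))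
    · constructor
      · intro h6
        rw [h4] at h6
        rcases mul_eq_zero.1 h6 with h7 | h7
        · exact absurd h7 h3.ne'
        · rcases mul_eq_zero.1 h7 with h8 | h8
          · exact absurd h8 h5.ne'
          · exact ⟨h, by linarith⟩
      · rintro ⟨_, h6⟩
        rw [h4, h6]
        ring
  · have hpos := ev_pos hW (by norm_num; linarith)
    filter_upwards [hform, hpos] with r hr hn
    have h9 : 0 < dv G T g M r x p := by rw [hr.2]; exact mul_pos hr.1 hn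
    refine ⟨⟨fun h0 => absurd h0 (not_lt.mpr h9.le), ?_⟩, ⟨fun h0 => absurd h0 h9.ne', ?_⟩⟩
    · rintro (h0 | h0)
      · exact absurd h0 (not_lt.mpr h.le)
      · exact absurd h0.1 h.ne'
    · intro h0
      exact absurd h0.1 h.ne'

theorem class_pass (hM : ∀ (k : T.ι) (v : T.κ), (T.τ k : ℝ) * T.X v + T.Y v < M)
    (b : {b : ℝ // b ∈ B}) (k : T.ι) (p : NK G T A) :
    ∀ᶠ r in 𝓝[>] (0 : ℝ),
      (dv G T g M r ((G.lo p.1, (b, (k, false))) : NI G T B) p < 0 ↔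
        (b : ℝ) - T.τ k * G.θ p.1 < p.2.1) ∧
      dv G T g M r ((G.lo p.1, (b, (k, false))) : NI G T B) p ≠ 0 := by
  set x : NI G T B := (G.lo p.1, (b, (k, false))) with hx
  have hh : 0 < G.h x.1 := G.h_pos _
  have hW : ContinuousAt (fun r : ℝ => ((b : ℝ) - T.τ k * G.θ p.1 - p.2.1) +
      r ^ 2 * (M - (T.τ k : ℝ) * T.X p.2.2 - T.Y p.2.2)) 0 := by fun_prop
  have hform : ∀ᶠ r in 𝓝[>] (0 : ℝ), 0 < r ^ 2 * G.h x.1 / (G.h x.1 + r / G.D x.1 * (-(T.τ k : ℝ))) ∧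
      dv G T g M r x p = (r ^ 2 * G.h x.1 / (G.h x.1 + r / G.D x.1 * (-(T.τ k : ℝ)))) *
      (((b : ℝ) - T.τ k * G.θ p.1 - p.2.1) +
      r ^ 2 * (M - (T.τ k : ℝ) * T.X p.2.2 - T.Y p.2.2)) := by
    filter_upwards [ev_rpos, den_ev (G.h x.1) (G.D x.1) (-(T.τ k : ℝ)) hh] with r hr hden
    refine ⟨by positivity, ?_⟩
    have ht : tS T x.2.2.1 x.2.2.2 = -(T.τ k : ℝ) := by simp [hx, tS]
    rw [dv_act G T g M r x p rfl (by rw [ht]; exact hden.ne'), ht]
    simp only [nq, hx]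
    simp only [Bool.false_eq_true, if_false]
    ring
  have hM' : 0 < M - (T.τ k : ℝ) * T.X p.2.2 - T.Y p.2.2 := by
    have := hM k p.2.2
    linarith
  rcases lt_or_ge ((b : ℝ) - T.τ k * G.θ p.1) p.2.1 with h | h
  · have hneg := ev_neg hW (by norm_num; linarith)
    filter_upwards [hform, hneg] with r hr hn
    have : dv G T g M r x p < 0 := by rw [hr.2]; exact mul_neg_of_pos_of_neg hr.1 hn
    exact ⟨⟨fun _ => h, fun _ => this⟩, this.ne⟩
  · filter_upwards [hform, ev_rpos] with r hr hrp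
    have h9 : 0 < dv G T g M r x p := by
      rw [hr.2]
      apply mul_pos hr.1
      have : 0 < r ^ 2 * (M - (T.τ k : ℝ) * T.X p.2.2 - T.Y p.2.2) := by positivity
      linarith
    exact ⟨⟨fun h0 => absurd h0 (not_lt.mpr h9.le), fun h0 => absurd h0 (not_lt.mpr h)⟩, h9.ne'⟩

theorem class_up (hg : 0 < g) (hgap : ∀ b ∈ B, ∀ b' ∈ B, b < b' → b + g ≤ b') (hAB : A ⊆ B)
    (b : {b : ℝ // b ∈ B}) (k : T.ι) (cc : Bool) (p : NK G T A) :
    ∀ᶠ r in 𝓝[>] (0 : ℝ),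
      (dv G T g M r ((G.up p.1, (b, (k, cc))) : NI G T B) p < 0 ↔ ¬ ((b : ℝ) < p.2.1)) ∧
      dv G T g M r ((G.up p.1, (b, (k, cc))) : NI G T B) p ≠ 0 := by
  set x : NI G T B := (G.up p.1, (b, (k, cc))) with hx
  have hna : ¬ G.act x.1 := G.act_up _
  have hW : ContinuousAt (fun r : ℝ => (((p.2.1 : ℝ) - b - g / 2) + (r ^ 2 * T.Y p.2.2 +
      r * (G.D (G.lo p.1) * G.h (G.lo p.1) * T.X p.2.2) - r * (p.2.1 + r ^ 2 * T.Y p.2.2)))) 0 := by
    fun_prop
  have hform : ∀ r : ℝ, dv G T g M r x p = r * (((p.2.1 : ℝ) - b - g / 2) + (r ^ 2 * T.Y p.2.2 +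
      r * (G.D (G.lo p.1) * G.h (G.lo p.1) * T.X p.2.2) - r * (p.2.1 + r ^ 2 * T.Y p.2.2))) := by
    intro r
    rw [← inact_val (G.s (G.up p.1)) (G.c (G.up p.1)) (G.s (G.lo p.1)) (G.c (G.lo p.1))
      (G.D (G.lo p.1)) (G.X p.1) (G.Y p.1) b g r (G.h (G.lo p.1)) (T.X p.2.2) (T.Y p.2.2) p.2.1
      (G.θ p.1) (G.x0 (G.lo p.1)) (G.D_pos _).ne' (G.hup _) (G.hlo _) (G.hD _) (G.hX _)]
    unfold dv pNY nS nC pNX
    rw [if_neg hna, if_neg hna]
  rcases lt_or_ge (b : ℝ) p.2.1 with h | h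
  · have h1 := hgap b b.2 p.2.1 (hAB p.2.1.2) h
    have hpos := ev_pos hW (by norm_num; linarith)
    filter_upwards [hpos, ev_rpos] with r hr hrp
    have h9 : 0 < dv G T g M r x p := by rw [hform]; exact mul_pos hrp hr
    exact ⟨⟨fun h0 => absurd h0 (not_lt.mpr h9.le), fun h0 => absurd h h0⟩, h9.ne'⟩
  · have hneg := ev_neg hW (by norm_num; linarith)
    filter_upwards [hneg, ev_rpos] with r hr hrp
    have h9 : dv G T g M r x p < 0 := by rw [hform]; exact mul_neg_of_pos_of_neg hrp hr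
    exact ⟨⟨fun _ => not_lt.mpr h, fun _ => h9⟩, h9.ne⟩

end Pool.Agent.KL
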