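import Pool.Agent.KL.PartD3

namespace Pool.Agent.KL
open Finset Filter Topology

variable {V H : ℕ} {Θ A B : Finset ℝ} (G : Cfg Θ) (T : TCfg V H) (g M : ℝ)

theorem sum_core (B : Finset ℝ) (α t : ℝ) (Q : Prop) [Decidable Q] (h : α - t ∈ B) :
    (∑ b : {b : ℝ // b ∈ B}, if ((b : ℝ) + t < α ∨ ((b : ℝ) + t = α ∧ Q)) then 1 else 0) =
      (B.filter fun b => b < α - t).card + (if Q then 1 else 0) := by
  rw [Finset.sum_coe_sort B (fun b => if (b + t < α ∨ (b + t = α ∧ Q)) then 1 else 0)]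
  have e1 : ∀ b ∈ B, (if (b + t < α ∨ (b + t = α ∧ Q)) then 1 else 0) =
      (if b < α - t then 1 else 0) + (if b = α - t then (if Q then 1 else 0) else 0) := by
    intro b _
    by_cases h1 : b + t < α
    · have h2 : b < α - t := by linarith
      have h3 : b ≠ α - t := h2.ne
      simp [h1, h2, h3]
    · by_cases h4 : b + t = α
      · have h5 : b = α - t := by linarith
        have h6 : ¬ (b < α - t) := by rw [h5]; exact lt_irrefl _
        have e : (b + t < α ∨ (b + t = α ∧ Q)) ↔ Q :=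
          ⟨fun h => h.elim (fun h => absurd h h1) (fun h => h.2), fun h => Or.inr ⟨h4, h⟩⟩
        rw [if_congr e rfl rfl, if_neg h6, if_pos h5, zero_add]
      · have h5 : ¬ (b < α - t) := fun h => h1 (by linarith)
        have h6 : b ≠ α - t := fun h => h4 (by linarith)
        simp [h1, h4, h5, h6]
  rw [Finset.sum_congr rfl e1, Finset.sum_add_distrib, Finset.card_filter, Finset.sum_ite_eq',
    if_pos h]

theorem sum_pass (B : Finset ℝ) (α t : ℝ) :
    (∑ b : {b : ℝ // b ∈ B}, if ((b : ℝ) - t < α) then 1 else 0) =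
      (B.filter fun b => b < α + t).card := by
  rw [Finset.sum_coe_sort B (fun b => if (b - t < α) then 1 else 0), Finset.card_filter]
  apply Finset.sum_congr rfl
  intro b _
  apply if_congr _ rfl rfl
  constructor <;> intro h <;> linarith

theorem sum_up (B : Finset ℝ) (α : ℝ) :
    (∑ b : {b : ℝ // b ∈ B}, if ¬ ((b : ℝ) < α) then 1 else 0) +
      (B.filter fun b => b < α).card = B.card := by
  rw [Finset.sum_coe_sort B (fun b => if ¬ (b < α) then 1 else 0), ← Finset.card_filter,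
    add_comm]
  exact Finset.card_filter_add_card_filter_not _

/-- all the order conditions at the parameter value `r` -/
structure GoodR (r : ℝ) : Prop where
  rpos : 0 < r
  far : ∀ (x : NI G T B) (p : NK G T A), x.1 ≠ G.lo p.1 → x.1 ≠ G.up p.1 →
    (dv G T g M r x p < 0 ↔ G.s x.1 * G.X p.1 + G.c x.1 < G.Y p.1) ∧ dv G T g M r x p ≠ 0
  core : ∀ (b : {b : ℝ // b ∈ B}) (k : T.ι) (p : NK G T A),
    (dv G T g M r ((G.lo p.1, (b, (k, true))) : NI G T B) p < 0 ↔
        ((b : ℝ) + T.τ k * G.θ p.1 < p.2.1 ∨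
          ((b : ℝ) + T.τ k * G.θ p.1 = p.2.1 ∧ (T.τ k : ℝ) * T.X p.2.2 + T.c k < T.Y p.2.2))) ∧
      (dv G T g M r ((G.lo p.1, (b, (k, true))) : NI G T B) p = 0 ↔
        ((b : ℝ) + T.τ k * G.θ p.1 = p.2.1 ∧ (T.τ k : ℝ) * T.X p.2.2 + T.c k = T.Y p.2.2))
  pass : ∀ (b : {b : ℝ // b ∈ B}) (k : T.ι) (p : NK G T A),
    (dv G T g M r ((G.lo p.1, (b, (k, false))) : NI G T B) p < 0 ↔
        (b : ℝ) - T.τ k * G.θ p.1 < p.2.1) ∧
      dv G T g M r ((G.lo p.1, (b, (k, false))) : NI G T B) p ≠ 0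
  up : ∀ (b : {b : ℝ // b ∈ B}) (k : T.ι) (cc : Bool) (p : NK G T A),
      (dv G T g M r ((G.up p.1, (b, (k, cc))) : NI G T B) p < 0 ↔ ¬ ((b : ℝ) < p.2.1)) ∧
      dv G T g M r ((G.up p.1, (b, (k, cc))) : NI G T B) p ≠ 0

theorem goodR_ev (hM : ∀ (k : T.ι) (v : T.κ), (T.τ k : ℝ) * T.X v + T.Y v < M)
    (hg : 0 < g) (hgap : ∀ b ∈ B, ∀ b' ∈ B, b < b' → b + g ≤ b') (hAB : A ⊆ B) :
    ∀ᶠ r in 𝓝[>] (0 : ℝ), GoodR (A := A) (B := B) G T g M r := by
  have h1 : ∀ᶠ r in 𝓝[>] (0 : ℝ), ∀ (x : NI G T B) (p : NK G T A), x.1 ≠ G.lo p.1 →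
      x.1 ≠ G.up p.1 →
      (dv G T g M r x p < 0 ↔ G.s x.1 * G.X p.1 + G.c x.1 < G.Y p.1) ∧ dv G T g M r x p ≠ 0 := by
    rw [eventually_all]; intro x
    rw [eventually_all]; intro p
    rw [eventually_imp_distrib_left]; intro h1
    rw [eventually_imp_distrib_left]; intro h2
    exact class_far G T g M x p h1 h2
  have h2 : ∀ᶠ r in 𝓝[>] (0 : ℝ), ∀ (b : {b : ℝ // b ∈ B}) (k : T.ι) (p : NK G T A),
    (dv G T g M r ((G.lo p.1, (b, (k, true))) : NI G T B) p < 0 ↔
        ((b : ℝ) + T.τ k * G.θ p.1 < p.2.1 ∨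
          ((b : ℝ) + T.τ k * G.θ p.1 = p.2.1 ∧ (T.τ k : ℝ) * T.X p.2.2 + T.c k < T.Y p.2.2))) ∧
      (dv G T g M r ((G.lo p.1, (b, (k, true))) : NI G T B) p = 0 ↔
        ((b : ℝ) + T.τ k * G.θ p.1 = p.2.1 ∧ (T.τ k : ℝ) * T.X p.2.2 + T.c k = T.Y p.2.2)) := by
    rw [eventually_all]; intro b
    rw [eventually_all]; intro k
    rw [eventually_all]; intro p
    exact class_core G T g M b k p
  have h3 : ∀ᶠ r in 𝓝[>] (0 : ℝ), ∀ (b : {b : ℝ // b ∈ B}) (k : T.ι) (p : NK G T A),
    (dv G T g M r ((G.lo p.1, (b, (k, false))) : NI G T B) p < 0 ↔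
        (b : ℝ) - T.τ k * G.θ p.1 < p.2.1) ∧
      dv G T g M r ((G.lo p.1, (b, (k, false))) : NI G T B) p ≠ 0 := by
    rw [eventually_all]; intro b
    rw [eventually_all]; intro k
    rw [eventually_all]; intro p
    exact class_pass G T g M hM b k p
  have h4 : ∀ᶠ r in 𝓝[>] (0 : ℝ), ∀ (b : {b : ℝ // b ∈ B}) (k : T.ι) (cc : Bool) (p : NK G T A),
      (dv G T g M r ((G.up p.1, (b, (k, cc))) : NI G T B) p < 0 ↔ ¬ ((b : ℝ) < p.2.1)) ∧
      dv G T g M r ((G.up p.1, (b, (k, cc))) : NI G T B) p ≠ 0 := by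
    rw [eventually_all]; intro b
    rw [eventually_all]; intro k
    rw [eventually_all]; intro cc
    rw [eventually_all]; intro p
    exact class_up G T g M hg hgap hAB b k cc p
  filter_upwards [h1, h2, h3, h4, ev_rpos] with r a1 a2 a3 a4 a5
  exact ⟨a5, a1, a2, a3, a4⟩

theorem cfg_lo_ne_up (e : G.κ) : G.lo e ≠ G.up e := by
  intro h
  have := G.act_lo e
  rw [h] at this
  exact G.act_up e this

theorem count (S : Scale H Θ A B) {r : ℝ} (hr : GoodR (A := A) (B := B) G T g M r)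
    (p : NK G T A) :
    (univ.filter fun x : NI G T B => nS G T r x * pNX G T r p + nC G T g M r x < pNY G T r p).card =
      G.K * (B.card * (2 * Fintype.card T.ι)) + 2 * Fintype.card T.ι * B.card + T.K := by
  classical
  set α : ℝ := (p.2.1 : ℝ) with hα
  have hαA : α ∈ A := p.2.1.2
  set ρ : ℕ := (B.filter fun b => b < α).card with hρ
  have e0 : (univ.filter fun x : NI G T B => nS G T r x * pNX G T r p + nC G T g M r x <
      pNY G T r p).card = ∑ i : G.ι, ∑ y : {b : ℝ // b ∈ B} × (T.ι × Bool),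
        if dv G T g M r ((i, y) : NI G T B) p < 0 then 1 else 0 := by
    rw [Finset.card_filter, Fintype.sum_prod_type]
    apply Finset.sum_congr rfl; intro i _
    apply Finset.sum_congr rfl; intro y _
    apply if_congr _ rfl rfl
    unfold dv
    rw [sub_neg]
  have elo : (∑ y : {b : ℝ // b ∈ B} × (T.ι × Bool),
        if dv G T g M r ((G.lo p.1, y) : NI G T B) p < 0 then 1 else 0) =
        2 * Fintype.card T.ι * ρ + T.K := by
    rw [Fintype.sum_prod_type]
    have e1 : ∀ b : {b : ℝ // b ∈ B}, (∑ y : T.ι × Bool,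
        if dv G T g M r ((G.lo p.1, (b, y)) : NI G T B) p < 0 then 1 else 0) =
        ∑ k : T.ι, ((if ((b : ℝ) + T.τ k * G.θ p.1 < α ∨
          ((b : ℝ) + T.τ k * G.θ p.1 = α ∧ (T.τ k : ℝ) * T.X p.2.2 + T.c k < T.Y p.2.2))
          then 1 else 0) + (if (b : ℝ) - T.τ k * G.θ p.1 < α then 1 else 0)) := by
      intro b
      rw [Fintype.sum_prod_type]
      apply Finset.sum_congr rfl; intro k _
      rw [Fintype.sum_bool]
      congr 1
      · exact if_congr (hr.core b k p).1 rfl rfl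
      · exact if_congr (hr.pass b k p).1 rfl rfl
    rw [Finset.sum_congr rfl (fun b _ => e1 b), Finset.sum_comm]
    have e2 : ∀ k : T.ι, (∑ b : {b : ℝ // b ∈ B}, ((if ((b : ℝ) + T.τ k * G.θ p.1 < α ∨
          ((b : ℝ) + T.τ k * G.θ p.1 = α ∧ (T.τ k : ℝ) * T.X p.2.2 + T.c k < T.Y p.2.2))
          then 1 else 0) + (if (b : ℝ) - T.τ k * G.θ p.1 < α then 1 else 0))) =
          2 * ρ + (if (T.τ k : ℝ) * T.X p.2.2 + T.c k < T.Y p.2.2 then 1 else 0) := by
      intro k
      rw [Finset.sum_add_distrib, sum_core _ _ _ _ (S.sub α hαA _ (G.θ_mem p.1) _ (T.hτ k)),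
        sum_pass]
      have := S.rank α hαA _ (G.θ_mem p.1) _ (T.hτ k)
      omega
    rw [Finset.sum_congr rfl (fun k _ => e2 k), Finset.sum_add_distrib, ← Finset.card_filter,
      T.hK]
    simp only [sum_const, card_univ, smul_eq_mul]
    ring
  have eup : (∑ y : {b : ℝ // b ∈ B} × (T.ι × Bool),
        if dv G T g M r ((G.up p.1, y) : NI G T B) p < 0 then 1 else 0) =
        2 * Fintype.card T.ι * (B.card - ρ) := by
    rw [Fintype.sum_prod_type]
    have e1 : ∀ b : {b : ℝ // b ∈ B}, (∑ y : T.ι × Bool,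
        if dv G T g M r ((G.up p.1, (b, y)) : NI G T B) p < 0 then 1 else 0) =
        2 * Fintype.card T.ι * (if ¬ ((b : ℝ) < α) then 1 else 0) := by
      intro b
      have e3 : ∀ y : T.ι × Bool,
          (if dv G T g M r ((G.up p.1, (b, y)) : NI G T B) p < 0 then 1 else 0) =
          (if ¬ ((b : ℝ) < α) then 1 else 0) := fun y =>
        if_congr (hr.up b y.1 y.2 p).1 rfl rfl
      rw [Finset.sum_congr rfl (fun y _ => e3 y), Finset.sum_const, card_univ,
        Fintype.card_prod, Fintype.card_bool, smul_eq_mul]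
      ring
    rw [Finset.sum_congr rfl (fun b _ => e1 b), ← Finset.mul_sum]
    have := sum_up B α
    congr 1
    omega
  have eall : ∀ i : G.ι, (∑ y : {b : ℝ // b ∈ B} × (T.ι × Bool),
        if dv G T g M r ((i, y) : NI G T B) p < 0 then 1 else 0) =
        (if G.s i * G.X p.1 + G.c i < G.Y p.1 then 1 else 0) *
          (B.card * (2 * Fintype.card T.ι)) +
        (if i = G.lo p.1 then 2 * Fintype.card T.ι * ρ + T.K else 0) +
        (if i = G.up p.1 then 2 * Fintype.card T.ι * (B.card - ρ) else 0) := by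
    intro i
    by_cases h1 : i = G.lo p.1
    · have h2 : i ≠ G.up p.1 := by rw [h1]; exact cfg_lo_ne_up G _
      have h3 : ¬ (G.s i * G.X p.1 + G.c i < G.Y p.1) := by
        rw [h1, G.hlo]; exact lt_irrefl _
      rw [if_neg h3, if_pos h1, if_neg h2, h1, elo]
      simp
    · by_cases h2 : i = G.up p.1
      · have h3 : ¬ (G.s i * G.X p.1 + G.c i < G.Y p.1) := by
          rw [h2, G.hup]; exact lt_irrefl _
        rw [if_neg h3, if_neg h1, if_pos h2, h2, eup]
        simp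
      · rw [if_neg h1, if_neg h2]
        have e3 : ∀ y : {b : ℝ // b ∈ B} × (T.ι × Bool),
            (if dv G T g M r ((i, y) : NI G T B) p < 0 then 1 else 0) =
            (if G.s i * G.X p.1 + G.c i < G.Y p.1 then 1 else 0) := fun y =>
          if_congr (hr.far ((i, y) : NI G T B) p h1 h2).1 rfl rfl
        rw [Finset.sum_congr rfl (fun y _ => e3 y), Finset.sum_const, card_univ,
          Fintype.card_prod, Fintype.card_prod, Fintype.card_bool, smul_eq_mul,
          Fintype.card_coe]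
        ring
  rw [e0, Finset.sum_congr rfl (fun i _ => eall i), Finset.sum_add_distrib,
    Finset.sum_add_distrib, ← Finset.sum_mul, ← Finset.card_filter, G.hK, Finset.sum_ite_eq',
    Finset.sum_ite_eq', if_pos (Finset.mem_univ _), if_pos (Finset.mem_univ _)]
  have hρB : ρ ≤ B.card := Finset.card_filter_le _ _
  have : 2 * Fintype.card T.ι * ρ + 2 * Fintype.card T.ι * (B.card - ρ) =
      2 * Fintype.card T.ι * B.card := by
    rw [← mul_add]
    congr 1
    omega
  omega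

end Pool.Agent.KL
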