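import Pool.Agent.KL.PartD

namespace Pool.Agent.KL
open Finset

theorem cfg_pre {Θ : Finset ℝ} (G : Cfg Θ) :
    Pre (Fintype.card G.ι) (Fintype.card G.κ) G.K := by
  refine ⟨G.ι, G.κ, inferInstance, inferInstance, G.s, G.c, G.lo, G.up, G.X, G.Y, rfl, rfl, ?_,
    G.hlo, G.hup, G.hne, G.hK, G.inj⟩
  intro e
  rw [G.hD]
  have := G.D_pos (G.lo e)
  linarith

/-- the initial configuration: two crossing lines -/
noncomputable def G0 : Cfg ({0} : Finset ℝ) where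
  ι := Bool
  κ := Unit
  s := fun b => if b then 1 else 0
  c := fun _ => 0
  lo := fun _ => false
  up := fun _ => true
  X := fun _ => 0
  Y := fun _ => 0
  K := 0
  hlo := by simp
  hup := by simp
  hne := by
    intro e i h1 h2
    cases i <;> simp_all
  hK := by simp
  inj := fun _ _ _ => rfl
  act := fun b => b = false
  D := fun _ => 1
  x0 := fun _ => 0
  h := fun _ => 1
  D_pos := by simp
  h_pos := by simp
  θ := fun _ => 0
  θ_mem := by simp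
  act_lo := by simp
  act_up := by simp
  hD := by simp
  hX := by simp

theorem scale0 (H : ℕ) : Scale H {0} {0} {0} where
  AB := subset_refl _
  sub := by simp
  add := by simp
  rank := by
    intro α hα θ hθ τ hτ
    rw [Finset.mem_singleton] at hα hθ
    subst hα hθ
    simp only [mul_zero, sub_zero, add_zero]
    ring
  gap := ⟨1, one_pos, by simp⟩

theorem iter {V H : ℕ} (T : TCfg V H) (L : ℕ) (hL : 2 * (H * V) < L) (s : ℕ) :
    ∃ (Θ A B : Finset ℝ) (_ : Scale H Θ A B) (G : Cfg Θ), A.card = (L - 2 * (H * V)) ^ s ∧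
      B.card = L ^ s ∧
      Fintype.card G.ι = 2 * (2 * Fintype.card T.ι) ^ s * L ^ (s * (s - 1) / 2) ∧
      Fintype.card G.κ = (Fintype.card T.κ) ^ s * (L - 2 * (H * V)) ^ (s * (s - 1) / 2) := by
  induction s with
  | zero =>
    refine ⟨{0}, {0}, {0}, scale0 H, G0, by simp, by simp, ?_, ?_⟩
    · have : Fintype.card G0.ι = 2 := Fintype.card_bool
      simp [this]
    · have : Fintype.card G0.κ = 1 := Fintype.card_unit
      simp [this]
  | succ s ih =>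
    obtain ⟨Θ, A, B, S, G, hA, hB, hι, hκ⟩ := ih
    obtain ⟨γ0, hγ0, h1⟩ := partD_scale H V L hL Θ A B S
    obtain ⟨r0, hr0, h2⟩ := partD_prod V H Θ A B S G T
    have hTh := T.h_pos
    set r : ℝ := min (r0 / 2) (min 1 (γ0 / (2 * T.h))) with hr
    have hr1 : 0 < r := by
      rw [hr]
      refine lt_min (by linarith) (lt_min one_pos (by positivity))
    have hr2 : r < r0 := lt_of_le_of_lt (min_le_left _ _) (by linarith)
    have hr3 : r ≤ 1 := (min_le_right _ _).trans (min_le_left _ _)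
    have hr4 : r ≤ γ0 / (2 * T.h) := (min_le_right _ _).trans (min_le_right _ _)
    have hγ : r ^ 2 * T.h < γ0 := by
      have h5 : r ^ 2 ≤ r := by nlinarith
      have h6 : r ^ 2 * T.h ≤ r * T.h := mul_le_mul_of_nonneg_right h5 hTh.le
      have h7 : r * T.h ≤ γ0 / (2 * T.h) * T.h := mul_le_mul_of_nonneg_right hr4 hTh.le
      have h8 : γ0 / (2 * T.h) * T.h = γ0 / 2 := by
        field_simp
      linarith
    obtain ⟨A', B', S', hA', hB'⟩ := h1 (r ^ 2 * T.h) (by positivity) hγ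
    obtain ⟨G', hι', hκ'⟩ := h2 r hr1 hr2
    have hexp : (s + 1) * (s + 1 - 1) / 2 = s * (s - 1) / 2 + s := by
      cases s with
      | zero => rfl
      | succ n =>
        simp only [Nat.add_sub_cancel]
        have : (n + 1 + 1) * (n + 1) = (n + 1) * n + 2 * (n + 1) := by ring
        rw [this, Nat.add_mul_div_left _ _ (by norm_num : 0 < 2)]
    refine ⟨_, A', B', S', G', ?_, ?_, ?_, ?_⟩
    · rw [hA', hA, pow_succ]
    · rw [hB', hB, pow_succ]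
    · rw [hι', hι, hB, hexp, pow_add, pow_succ]
      ring
    · rw [hκ', hκ, hA, hexp, pow_add, pow_succ]
      ring

theorem bern (t e : ℕ) (ht : 2 ≤ t) (he : 2 * e ≤ t ^ 2) : (t ^ 2) ^ e ≤ 2 * (t ^ 2 - 1) ^ e := by
  have ht0 : (0 : ℝ) < (t : ℝ) ^ 2 := by positivity
  have h1 : (1 : ℝ) ≤ (t : ℝ) ^ 2 := by
    have : (1 : ℝ) ≤ t := by exact_mod_cast (by omega : 1 ≤ t)
    nlinarith
  have hb := one_add_mul_le_pow (a := -(1 / (t : ℝ) ^ 2)) (by
    have : 1 / (t : ℝ) ^ 2 ≤ 1 := by rw [div_le_one ht0]; exact h1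
    linarith) e
  have h2 : (e : ℝ) * (1 / (t : ℝ) ^ 2) ≤ 1 / 2 := by
    rw [mul_one_div, div_le_div_iff₀ ht0 two_pos]
    have : (2 * e : ℝ) ≤ (t : ℝ) ^ 2 := by exact_mod_cast he
    linarith
  have h3 : (1 / 2 : ℝ) ≤ (1 + -(1 / (t : ℝ) ^ 2)) ^ e := by
    refine le_trans ?_ hb
    linarith
  have h4 : ((t : ℝ) ^ 2) ^ e ≤ 2 * ((t : ℝ) ^ 2 - 1) ^ e := by
    have h5 : ((t : ℝ) ^ 2 - 1) ^ e = ((t : ℝ) ^ 2) ^ e * (1 + -(1 / (t : ℝ) ^ 2)) ^ e := by
      rw [← mul_pow]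
      congr 1
      field_simp
      ring
    rw [h5]
    have h6 : 0 < ((t : ℝ) ^ 2) ^ e := by positivity
    nlinarith
  have h7 : 1 ≤ t ^ 2 := Nat.one_le_pow _ _ (by omega)
  have h8 : (((t ^ 2) ^ e : ℕ) : ℝ) ≤ ((2 * (t ^ 2 - 1) ^ e : ℕ) : ℝ) := by
    push_cast [Nat.cast_sub h7]
    exact h4
  exact_mod_cast h8

theorem sq_le_two_pow (t : ℕ) (ht : 4 ≤ t) : t ^ 2 ≤ 2 ^ t := by
  induction t, ht using Nat.le_induction with
  | base => norm_num
  | succ n hn ih =>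
    rw [pow_succ 2 n]
    nlinarith

theorem partE' (hC : ∀ t a : ℕ, 1 ≤ t → 1 ≤ a → ∃ T : TCfg a (2 ^ t),
      Fintype.card T.ι = 2 * a ^ t + a ^ (t - 1) * (2 ^ t - 1) ∧
      Fintype.card T.κ = a * (2 * a) ^ (t - 1)) :
    ∃ t0 : ℕ, ∀ t ≥ t0, ∃ n m K : ℕ, Pre n m K ∧ 0 < m ∧
      n ≤ 2 ^ (4 * t ^ 3) ∧ n * 2 ^ (t ^ 2 / 2) ≤ m := by
  refine ⟨9, fun t ht => ?_⟩
  obtain ⟨T, hTι, hTκ⟩ := hC t (2 ^ t) (by omega) Nat.one_le_two_pow
  set nT := Fintype.card T.ι with hnT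
  set mT := Fintype.card T.κ with hmT
  have hmT' : mT = 2 ^ (t ^ 2 + t - 1) := by
    rw [hTκ]
    have : t ^ 2 + t - 1 = t + (t + 1) * (t - 1) := by
      obtain ⟨u, rfl⟩ : ∃ u, t = u + 1 := ⟨t - 1, by omega⟩
      simp only [Nat.add_sub_cancel]
      have : (u + 1) ^ 2 + (u + 1) = (u + 1 + (u + 1 + 1) * u) + 1 := by ring
      omega
    rw [this, pow_add]
    congr 1
    rw [show 2 * 2 ^ t = 2 ^ (t + 1) by rw [pow_succ]; ring, ← pow_mul]
  have hnT' : 2 * nT ≤ 2 ^ (t ^ 2 + 3) := by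
    have e1 : (2 ^ t) ^ t = 2 ^ (t ^ 2) := by rw [← pow_mul, sq]
    have e2 : (2 ^ t) ^ (t - 1) * (2 ^ t - 1) ≤ 2 ^ (t ^ 2) := by
      calc (2 ^ t) ^ (t - 1) * (2 ^ t - 1) ≤ (2 ^ t) ^ (t - 1) * 2 ^ t :=
            Nat.mul_le_mul_left _ (Nat.sub_le _ _)
        _ = (2 ^ t) ^ t := by
            rw [← pow_succ]
            congr 1
            omega
        _ = 2 ^ (t ^ 2) := e1
    rw [hTι, e1, pow_add]
    omega
  have hI1 : 2 * nT * 2 ^ (t - 4) ≤ mT := by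
    rw [hmT']
    calc 2 * nT * 2 ^ (t - 4) ≤ 2 ^ (t ^ 2 + 3) * 2 ^ (t - 4) := Nat.mul_le_mul_right _ hnT'
      _ = 2 ^ (t ^ 2 + t - 1) := by
          rw [← pow_add]
          congr 1
          omega
  set L := 2 * t ^ 2 * (2 ^ t * 2 ^ t) with hLdef
  have hLP : L - 2 * (2 ^ t * 2 ^ t) = 2 * (2 ^ t * 2 ^ t) * (t ^ 2 - 1) := by
    rw [hLdef, Nat.mul_sub]
    congr 1
    · ring
    · ring
  have hpos : 0 < 2 ^ t * 2 ^ t := by positivity
  have ht2 : 81 ≤ t ^ 2 := by nlinarith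
  have hL : 2 * (2 ^ t * 2 ^ t) < L := by
    rw [hLdef]
    nlinarith
  obtain ⟨Θ, A, B, S, G, hA, hB, hι, hκ⟩ := iter T L hL t
  rw [← hnT] at hι
  rw [← hmT] at hκ
  set e := t * (t - 1) / 2 with he
  have he2 : 2 * e ≤ t ^ 2 := by
    have h1 : 2 * e ≤ t * (t - 1) := Nat.mul_div_le _ _
    have h2 : t * (t - 1) ≤ t ^ 2 := by
      rw [sq]
      exact Nat.mul_le_mul_left _ (Nat.sub_le _ _)
    omega
  have hPL : L ^ e ≤ 2 * (L - 2 * (2 ^ t * 2 ^ t)) ^ e := by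
    have h1 : L ^ e = (2 * (2 ^ t * 2 ^ t)) ^ e * (t ^ 2) ^ e := by
      rw [← mul_pow, hLdef]
      congr 1
      ring
    have h2 : (2 * (2 ^ t * 2 ^ t) * (t ^ 2 - 1)) ^ e =
      (2 * (2 ^ t * 2 ^ t)) ^ e * (t ^ 2 - 1) ^ e := mul_pow _ _ _
    rw [hLP, h1, h2]
    have := bern t e (by omega) he2
    calc (2 * (2 ^ t * 2 ^ t)) ^ e * (t ^ 2) ^ e ≤
        (2 * (2 ^ t * 2 ^ t)) ^ e * (2 * (t ^ 2 - 1) ^ e) := Nat.mul_le_mul_left _ this
      _ = 2 * ((2 * (2 ^ t * 2 ^ t)) ^ e * (t ^ 2 - 1) ^ e) := by ring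
  have hnm : Fintype.card G.ι * 2 ^ (t * (t - 4) - 2) ≤ Fintype.card G.κ := by
    have h1 : (2 * nT) ^ t * 2 ^ ((t - 4) * t) ≤ mT ^ t := by
      rw [pow_mul, ← mul_pow]
      exact Nat.pow_le_pow_left hI1 t
    have h2 : 2 ≤ t * (t - 4) := by nlinarith [Nat.sub_add_cancel (show 4 ≤ t by omega)]
    have h3 : 2 ^ ((t - 4) * t) = 4 * 2 ^ (t * (t - 4) - 2) := by
      calc 2 ^ ((t - 4) * t) = 2 ^ (2 + (t * (t - 4) - 2)) := by
            congr 1
            rw [mul_comm]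
            omega
        _ = 4 * 2 ^ (t * (t - 4) - 2) := by rw [pow_add]; norm_num
    rw [h3] at h1
    rw [hι, hκ]
    have h4 : 4 * (2 * (2 * nT) ^ t * L ^ e * 2 ^ (t * (t - 4) - 2)) ≤
        4 * (mT ^ t * (L - 2 * (2 ^ t * 2 ^ t)) ^ e) := by
      calc 4 * (2 * (2 * nT) ^ t * L ^ e * 2 ^ (t * (t - 4) - 2))
          = 2 * (((2 * nT) ^ t * (4 * 2 ^ (t * (t - 4) - 2))) * L ^ e) := by ring
        _ ≤ 2 * (mT ^ t * (2 * (L - 2 * (2 ^ t * 2 ^ t)) ^ e)) := by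
            apply Nat.mul_le_mul_left
            exact Nat.mul_le_mul h1 hPL
        _ = 4 * (mT ^ t * (L - 2 * (2 ^ t * 2 ^ t)) ^ e) := by ring
    omega
  refine ⟨_, _, _, cfg_pre G, ?_, ?_, ?_⟩
  · rw [hκ]
    have h1 : 0 < mT := by rw [hmT']; positivity
    have h2 : 0 < L - 2 * (2 ^ t * 2 ^ t) := by omega
    positivity
  · rw [hι]
    have hLb : L ≤ 2 ^ (3 * t + 1) := by
      have := sq_le_two_pow t (by omega)
      calc L = 2 * t ^ 2 * (2 ^ t * 2 ^ t) := rfl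
        _ ≤ 2 * 2 ^ t * (2 ^ t * 2 ^ t) := by gcongr
        _ = 2 ^ (3 * t + 1) := by
          rw [show 3 * t + 1 = 1 + t + (t + t) by ring, pow_add, pow_add, pow_add]
          ring
    calc 2 * (2 * nT) ^ t * L ^ e ≤ 2 * (2 ^ (t ^ 2 + 3)) ^ t * (2 ^ (3 * t + 1)) ^ e := by
          gcongr
      _ = 2 ^ (1 + (t ^ 2 + 3) * t + (3 * t + 1) * e) := by
          rw [← pow_mul, ← pow_mul, pow_add, pow_add]
          ring
      _ ≤ 2 ^ (4 * t ^ 3) := by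
          apply Nat.pow_le_pow_right (by norm_num)
          have h1 : (3 * t + 1) * (2 * e) ≤ (3 * t + 1) * t ^ 2 := Nat.mul_le_mul_left _ he2
          have h2 : (3 * t + 1) * t ^ 2 = 3 * t ^ 3 + t ^ 2 := by ring
          have h3 : (t ^ 2 + 3) * t = t ^ 3 + 3 * t := by ring
          have h4 : t ^ 3 = t * t ^ 2 := by ring
          nlinarith
  · refine le_trans (Nat.mul_le_mul_left _ (Nat.pow_le_pow_right (by norm_num) ?_)) hnm
    have h1 : t * (t - 4) = t ^ 2 - 4 * t := by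
      rw [Nat.mul_sub, sq]
      congr 1
      ring
    rw [h1]
    have h2 : 9 * t ≤ t ^ 2 := by nlinarith
    omega

end Pool.Agent.KL
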